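import Pool.Agent.W367.KT.Reg
set_option autoImplicit false

/-!
Closed paths over circles of transcendental radius.
-/

namespace Pool.Agent.W367.KT

open Set MeasureTheory intervalIntegral Polynomial
open scoped TensorProduct WithZero

/-- the point of the circle of radius `R` with parameter `t` -/
noncomputable def circ (R : ℝ) (t : ℝ) : ℂ := R * Complex.exp (2 * Real.pi * Complex.I * t)

theorem circ_closed (R : ℝ) : circ R 0 = circ R 1 := by
  unfold circ
  simp [Complex.exp_two_pi_mul_I]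

theorem norm_circ {R : ℝ} (hR : 0 < R) (t : ℝ) : ‖circ R t‖ = R := by
  unfold circ
  rw [norm_mul, Complex.norm_exp]
  simp [abs_of_pos hR]

theorem circ_ne_zero {R : ℝ} (hR : 0 < R) (t : ℝ) : circ R t ≠ 0 := by
  rw [← norm_ne_zero_iff, norm_circ hR]; exact hR.ne'

theorem contDiff_circ (R : ℝ) {n : WithTop ℕ∞} : ContDiff ℝ n (circ R) := by
  unfold circ
  apply ContDiff.mul contDiff_const
  apply ContDiff.cexp
  apply ContDiff.mul contDiff_const
  exact Complex.ofRealCLM.contDiff

theorem hasDerivAt_circ (R t : ℝ) : HasDerivAt (circ R) (2 * Real.pi * Complex.I * circ R t) t := by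
  unfold circ
  have h0 : HasDerivAt (fun t : ℝ => (t : ℂ)) 1 t := by
    simpa using (hasDerivAt_id t).ofReal_comp
  have h1 := ((h0.const_mul (2 * Real.pi * Complex.I)).cexp).const_mul (R : ℂ)
  refine h1.congr_deriv ?_
  ring

theorem transcendental_circ {R : ℝ} (hR : 0 < R) (hT : Transcendental ℚ R) (t : ℝ) :
    Transcendental ℚ (circ R t) := by
  intro halg
  apply hT
  have h1 : IsAlgebraic ℚ ((starRingEnd ℂ) (circ R t)) := by
    have := halg.algHom (Complex.conjAe.toAlgHom.restrictScalars ℚ)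
    exact this
  have h2 : IsAlgebraic ℚ (circ R t * (starRingEnd ℂ) (circ R t)) := halg.mul h1
  have h3 : circ R t * (starRingEnd ℂ) (circ R t) = (algebraMap ℝ ℂ) (R ^ 2) := by
    rw [Complex.mul_conj, Complex.normSq_eq_norm_sq, norm_circ hR]
    rfl
  rw [h3] at h2
  have h4 : IsAlgebraic ℚ (R ^ 2) := by
    rw [← isAlgebraic_algebraMap_iff (FaithfulSMul.algebraMap_injective ℝ ℂ)]
    exact h2
  exact h4.of_pow (by norm_num)

theorem exists_transcendental_between {r s : ℝ} (h : r < s) : ∃ R, r < R ∧ R < s ∧ Transcendental ℚ R := by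
  have hc : {x : ℝ | IsAlgebraic ℚ x}.Countable := Algebraic.countable ℚ ℝ
  have hd := hc.dense_compl ℝ
  obtain ⟨R, hR1, hR2⟩ := hd.exists_between h
  exact ⟨R, hR2.1, hR2.2, hR1⟩

section EvR

variable {K : Type*} [Field K] [NumberField K] (σ : K →+* ℂ)

theorem eval₂_injective {z : ℂ} (hz : Transcendental ℚ z) :
    Function.Injective (Polynomial.eval₂RingHom σ z) := by
  rw [injective_iff_map_eq_zero]
  intro p hp
  by_contra hne
  apply hz
  let _ := σ.toAlgebra
  have : IsAlgebraic K z := ⟨p, hne, hp⟩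
  exact this.restrictScalars ℚ

/-- evaluation of rational functions at a transcendental number -/
noncomputable def evR {z : ℂ} (hz : Transcendental ℚ z) : RatFunc K →+* ℂ :=
  IsFractionRing.lift (eval₂_injective σ hz)

theorem evR_algebraMap {z : ℂ} (hz : Transcendental ℚ z) (p : K[X]) :
    evR σ hz (algebraMap K[X] (RatFunc K) p) = p.eval₂ σ z :=
  IsFractionRing.lift_algebraMap (eval₂_injective σ hz) p

variable (q : (RatFunc K)[X]) [hq : Fact (Irreducible q)]

/-- evaluation of the function field `RatFunc K [Y] / q` at a point of the curve -/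
noncomputable def evF {z w : ℂ} (hz : Transcendental ℚ z) (hw : q.eval₂ (evR σ hz) w = 0) :
    AdjoinRoot q →+* ℂ :=
  AdjoinRoot.lift (evR σ hz) w hw

theorem contDiff_evR {n : WithTop ℕ∞} {z : ℝ → ℂ} (hz : ∀ t, Transcendental ℚ (z t)) (hzc : ContDiff ℝ n z)
    (h : RatFunc K) : ContDiff ℝ n (fun t => evR σ (hz t) h) := by
  obtain ⟨a, b, hb, rfl⟩ := IsFractionRing.div_surjective (A := K[X]) h
  have hb0 : b ≠ 0 := nonZeroDivisors.ne_zero hb
  have key : ∀ p : K[X], ContDiff ℝ n (fun t => p.eval₂ σ (z t)) := by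
    intro p
    simp only [Polynomial.eval₂_eq_sum_range]
    apply ContDiff.sum
    intro i _
    exact contDiff_const.mul (hzc.pow i)
  have h2 : (fun t => evR σ (hz t) (algebraMap K[X] (RatFunc K) a / algebraMap K[X] (RatFunc K) b)) =
      fun t => a.eval₂ σ (z t) * (b.eval₂ σ (z t))⁻¹ := by
    funext t
    rw [map_div₀, evR_algebraMap, evR_algebraMap, div_eq_mul_inv]
  rw [h2]
  refine (key a).mul ((key b).inv ?_)
  intro t ht
  apply hb0
  exact (injective_iff_map_eq_zero _).1 (eval₂_injective σ (hz t)) b ht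

/-- a closed path in the curve with function field `RatFunc K [Y] / q` -/
noncomputable def mkLoop (z w : ℝ → ℂ) (hz : ∀ t, Transcendental ℚ (z t)) (hzc : ContDiff ℝ 1 z)
    (hw : ∀ t, q.eval₂ (evR σ (hz t)) (w t) = 0) (hwc : ContDiff ℝ 1 w) (hz1 : z 0 = z 1)
    (hw1 : w 0 = w 1) : Loop (AdjoinRoot q) where
  e t := evF σ q (hz t) (hw t)
  smooth h := by
    obtain ⟨p, rfl⟩ := AdjoinRoot.mk_surjective h
    have h2 : (fun t => evF σ q (hz t) (hw t) (AdjoinRoot.mk q p)) =
        fun t => ∑ i ∈ Finset.range (p.natDegree + 1), evR σ (hz t) (p.coeff i) * (w t) ^ i := by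
      funext t
      unfold evF
      rw [AdjoinRoot.lift_mk, Polynomial.eval₂_eq_sum_range]
    rw [h2]
    apply ContDiff.sum
    intro i _
    exact (contDiff_evR σ hz hzc _).mul (hwc.pow i)
  closed := by
    have key : ∀ (z0 z1 w0 w1 : ℂ) (_ : z0 = z1) (_ : w0 = w1) (h0 : Transcendental ℚ z0)
        (h1 : Transcendental ℚ z1) (h2 : q.eval₂ (evR σ h0) w0 = 0) (h3 : q.eval₂ (evR σ h1) w1 = 0),
        evF σ q h0 h2 = evF σ q h1 h3 := by
      rintro z0 _ w0 _ rfl rfl h0 h1 h2 h3
      rfl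
    exact key _ _ _ _ hz1 hw1 _ _ _ _

end EvR

end Pool.Agent.W367.KT
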