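import Pool.Agent.W367.KT.Pair
set_option autoImplicit false

/-!
Almost-monomial representations of functions on circles.
-/

namespace Pool.Agent.W367.KT

open Set MeasureTheory intervalIntegral Polynomial
open scoped TensorProduct WithZero Interval

/-- `A = c x^m exp(α)` on the circle, with bounds for `α` and `α'` -/
def Rep (R : ℝ) (A : ℝ → ℂ) (c : ℂ) (m : ℤ) (A0 A1 : ℝ) : Prop :=
  ∃ α : ℝ → ℂ, ContDiff ℝ 1 α ∧ α 0 = α 1 ∧ (∀ t, A t = c * circ R t ^ m * Complex.exp (α t)) ∧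
    (∀ t, ‖α t‖ ≤ A0) ∧ (∀ t, ‖deriv α t‖ ≤ A1)

/-- `A = c x^m exp(α)` on the circle, with bounds for `α` -/
def Rep' (R : ℝ) (A : ℝ → ℂ) (c : ℂ) (m : ℤ) (A0 : ℝ) : Prop :=
  ∃ α : ℝ → ℂ, ContDiff ℝ 1 α ∧ α 0 = α 1 ∧ (∀ t, A t = c * circ R t ^ m * Complex.exp (α t)) ∧
    (∀ t, ‖α t‖ ≤ A0)

theorem Rep.rep' {R : ℝ} {A : ℝ → ℂ} {c : ℂ} {m : ℤ} {A0 A1 : ℝ} (h : Rep R A c m A0 A1) :
    Rep' R A c m A0 := by
  obtain ⟨α, h1, h2, h3, h4, h5⟩ := h
  exact ⟨α, h1, h2, h3, h4⟩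

theorem Rep.const (R : ℝ) (c : ℂ) : Rep R (fun _ => c) c 0 0 0 :=
  ⟨fun _ => 0, contDiff_const, rfl, fun t => by simp, fun t => by simp, fun t => by simp⟩

theorem Rep.x (R : ℝ) : Rep R (circ R) 1 1 0 0 :=
  ⟨fun _ => 0, contDiff_const, rfl, fun t => by simp, fun t => by simp, fun t => by simp⟩

theorem Rep.mul {R : ℝ} (hR : 0 < R) {A B : ℝ → ℂ} {c d : ℂ} {m n : ℤ} {A0 A1 B0 B1 : ℝ}
    (hA : Rep R A c m A0 A1) (hB : Rep R B d n B0 B1) :
    Rep R (fun t => A t * B t) (c * d) (m + n) (A0 + B0) (A1 + B1) := by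
  obtain ⟨α, h1, h2, h3, h4, h5⟩ := hA
  obtain ⟨β, k1, k2, k3, k4, k5⟩ := hB
  refine ⟨fun t => α t + β t, h1.add k1, by dsimp only; rw [h2, k2], fun t => ?_, fun t => ?_, fun t => ?_⟩
  · dsimp only; rw [h3, k3, zpow_add₀ (circ_ne_zero hR t), Complex.exp_add]; ring
  · exact (norm_add_le _ _).trans (add_le_add (h4 t) (k4 t))
  · have : deriv (fun t => α t + β t) t = deriv α t + deriv β t :=
      (((h1.differentiable (by norm_num)) t).hasDerivAt.add ((k1.differentiable (by norm_num)) t).hasDerivAt).deriv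
    rw [this]
    exact (norm_add_le _ _).trans (add_le_add (h5 t) (k5 t))

theorem Rep'.mul {R : ℝ} (hR : 0 < R) {A B : ℝ → ℂ} {c d : ℂ} {m n : ℤ} {A0 B0 : ℝ}
    (hA : Rep' R A c m A0) (hB : Rep' R B d n B0) :
    Rep' R (fun t => A t * B t) (c * d) (m + n) (A0 + B0) := by
  obtain ⟨α, h1, h2, h3, h4⟩ := hA
  obtain ⟨β, k1, k2, k3, k4⟩ := hB
  refine ⟨fun t => α t + β t, h1.add k1, by dsimp only; rw [h2, k2], fun t => ?_, fun t => ?_⟩
  · dsimp only; rw [h3, k3, zpow_add₀ (circ_ne_zero hR t), Complex.exp_add]; ring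
  · exact (norm_add_le _ _).trans (add_le_add (h4 t) (k4 t))

theorem Rep'.inv {R : ℝ} {A : ℝ → ℂ} {c : ℂ} {m : ℤ} {A0 : ℝ}
    (hA : Rep' R A c m A0) : Rep' R (fun t => (A t)⁻¹) c⁻¹ (-m) A0 := by
  obtain ⟨α, h1, h2, h3, h4⟩ := hA
  refine ⟨fun t => -α t, h1.neg, by dsimp only; rw [h2], fun t => ?_, fun t => ?_⟩
  · dsimp only; rw [h3, mul_inv, mul_inv, zpow_neg, Complex.exp_neg]
  · rw [norm_neg]; exact h4 t

theorem Rep.prod {R : ℝ} (hR : 0 < R) {ι : Type*} (s : Finset ι) (A : ι → ℝ → ℂ) (c : ι → ℂ)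
    (m : ι → ℤ) (A0 A1 : ι → ℝ) (h : ∀ i ∈ s, Rep R (A i) (c i) (m i) (A0 i) (A1 i)) :
    Rep R (fun t => ∏ i ∈ s, A i t) (∏ i ∈ s, c i) (∑ i ∈ s, m i) (∑ i ∈ s, A0 i) (∑ i ∈ s, A1 i) := by
  classical
  induction s using Finset.induction_on with
  | empty => simpa using Rep.const R 1
  | insert i s hi ih =>
    simp only [Finset.prod_insert hi, Finset.sum_insert hi]
    exact (h i (Finset.mem_insert_self i s)).mul hR (ih fun j hj => h j (Finset.mem_insert_of_mem hj))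

theorem slit_of_norm {z : ℂ} (hz : ‖z‖ ≤ 1 / 2) : 1 + z ∈ Complex.slitPlane :=
  Complex.mem_slitPlane_of_norm_lt_one (by linarith)

/-- `exp (log)` representation of a function near `1` -/
theorem Rep'.near_one {R : ℝ} {A : ℝ → ℂ} (hA : ContDiff ℝ 1 A) (h01 : A 0 = A 1) {δ : ℝ} (hδ : δ ≤ 1 / 2)
    (h : ∀ t, ‖A t - 1‖ ≤ δ) : Rep' R A 1 0 (3 / 2 * δ) := by
  have hs : ∀ t, A t ∈ Complex.slitPlane := fun t => by
    have := slit_of_norm ((h t).trans hδ)
    rwa [add_sub_cancel] at this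
  refine ⟨fun t => Complex.log (A t), ?_, by dsimp only; rw [h01], fun t => ?_, fun t => ?_⟩
  · rw [contDiff_iff_contDiffAt]
    intro t
    exact (((Complex.contDiffAt_log (hs t)).restrict_scalars ℝ).comp t (hA.contDiffAt))
  · rw [Complex.exp_log (Complex.slitPlane_ne_zero (hs t))]; simp
  · have := Complex.norm_log_one_add_half_le_self ((h t).trans hδ)
    rw [add_sub_cancel] at this
    linarith [h t]

/-- factors `1 - k x^{±1}` with small `k x^{±1}` -/
theorem Rep.one_sub {R : ℝ} (hR : 0 < R) (k : ℂ) (s : ℤ) (hs : |(s:ℝ)| ≤ 1) (h : ∀ t, ‖k * circ R t ^ s‖ ≤ 1 / 2) :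
    Rep R (fun t => 1 - k * circ R t ^ s) 1 0 1 (2 * Real.pi) := by
  have hc : ContDiff ℝ 1 (fun t => 1 - k * circ R t ^ s) := by
    refine contDiff_const.sub (contDiff_const.mul ?_)
    cases s with
    | ofNat n => simpa using (contDiff_circ R).pow n
    | negSucc n =>
      simp only [zpow_negSucc]
      exact ((contDiff_circ R).pow (n+1)).inv (fun t => pow_ne_zero _ (circ_ne_zero hR t))
  have hs' : ∀ t, 1 - k * circ R t ^ s ∈ Complex.slitPlane := fun t => by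
    rw [sub_eq_add_neg]
    exact slit_of_norm (by rw [norm_neg]; exact h t)
  have hder : ∀ t, HasDerivAt (fun t => 1 - k * circ R t ^ s) (-(k * (2 * Real.pi * Complex.I * s * circ R t ^ s))) t := by
    intro t
    have h1 := (hasDerivAt_zpow s (circ R t) (Or.inl (circ_ne_zero hR t))).comp t (hasDerivAt_circ R t)
    have h2 := (h1.const_mul k).const_sub 1
    refine h2.congr_deriv ?_
    rw [zpow_sub_one₀ (circ_ne_zero hR t)]
    have := circ_ne_zero hR t
    field_simp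
  refine ⟨fun t => Complex.log (1 - k * circ R t ^ s), ?_, by dsimp only; rw [circ_closed], fun t => ?_, fun t => ?_, fun t => ?_⟩
  · rw [contDiff_iff_contDiffAt]
    intro t
    exact (((Complex.contDiffAt_log (hs' t)).restrict_scalars ℝ).comp t (hc.contDiffAt))
  · rw [Complex.exp_log (Complex.slitPlane_ne_zero (hs' t))]; simp
  · have := Complex.norm_log_one_add_half_le_self (z := -(k * circ R t ^ s)) (by rw [norm_neg]; exact h t)
    rw [← sub_eq_add_neg, norm_neg] at this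
    linarith [h t]
  · rw [((hder t).clog_real (hs' t)).deriv, norm_div, norm_neg]
    have h1 : ‖k * (2 * Real.pi * Complex.I * s * circ R t ^ s)‖ ≤ Real.pi := by
      have e : k * (2 * Real.pi * Complex.I * s * circ R t ^ s) = (2 * Real.pi * Complex.I * s) * (k * circ R t ^ s) := by ring
      rw [e, norm_mul]
      have e2 : ‖(2 * (Real.pi:ℂ) * Complex.I * s)‖ ≤ 2 * Real.pi := by
        rw [norm_mul, norm_mul, norm_mul]
        simp only [Complex.norm_ofNat, Complex.norm_real, Complex.norm_I, mul_one, Real.norm_eq_abs,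
          abs_of_pos Real.pi_pos, Complex.norm_intCast]
        nlinarith [Real.pi_pos]
      calc ‖(2 * (Real.pi:ℂ) * Complex.I * s)‖ * ‖k * circ R t ^ s‖ ≤ (2 * Real.pi) * (1/2) :=
            mul_le_mul e2 (h t) (norm_nonneg _) (by positivity)
        _ = Real.pi := by ring
    have h2 : 1 / 2 ≤ ‖1 - k * circ R t ^ s‖ := by
      have := norm_sub_norm_le (1:ℂ) (k * circ R t ^ s)
      rw [norm_one] at this
      linarith [h t]
    rw [div_le_iff₀ (by linarith)]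
    nlinarith [Real.pi_pos]

/-- Branch of `y + 1/y = φ` for large `φ`. -/
theorem exists_branch {R : ℝ} {φ : ℝ → ℂ} (hφ : ContDiff ℝ 1 φ) (h01 : φ 0 = φ 1) (hb : ∀ t, 4 ≤ ‖φ t‖) :
    ∃ v : ℝ → ℂ, ContDiff ℝ 1 v ∧ v 0 = v 1 ∧ (∀ t, (φ t * v t) ^ 2 - φ t * (φ t * v t) + 1 = 0) ∧
      Rep' R v 1 0 1 := by
  have h0 : ∀ t, φ t ≠ 0 := fun t h => by
    have := hb t
    rw [h, norm_zero] at this
    linarith
  have hsmall : ∀ t, ‖-(4 / (φ t) ^ 2)‖ ≤ 1 / 4 := by
    intro t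
    rw [norm_neg, norm_div, norm_pow]
    simp only [Complex.norm_ofNat]
    rw [div_le_iff₀ (by have := hb t; positivity)]
    nlinarith [hb t]
  have hs : ∀ t, 1 - 4 / (φ t) ^ 2 ∈ Complex.slitPlane := fun t => by
    rw [sub_eq_add_neg]
    exact slit_of_norm ((hsmall t).trans (by norm_num))
  have hc1 : ContDiff ℝ 1 (fun t => 1 - 4 / (φ t) ^ 2) :=
    by
      have : (fun t => 1 - 4 / (φ t) ^ 2) = fun t => 1 - 4 * ((φ t) ^ 2)⁻¹ := by
        funext t; rw [div_eq_mul_inv]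
      rw [this]
      exact contDiff_const.sub (contDiff_const.mul ((hφ.pow 2).inv (fun t => pow_ne_zero _ (h0 t))))
  have hc2 : ContDiff ℝ 1 (fun t => Complex.log (1 - 4 / (φ t) ^ 2)) := by
    rw [contDiff_iff_contDiffAt]
    intro t
    exact (((Complex.contDiffAt_log (hs t)).restrict_scalars ℝ).comp t (hc1.contDiffAt))
  set s : ℝ → ℂ := fun t => Complex.exp (Complex.log (1 - 4 / (φ t) ^ 2) / 2) with hsdef
  have hc3 : ContDiff ℝ 1 s := (hc2.div_const 2).cexp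
  have hs2 : ∀ t, s t ^ 2 = 1 - 4 / (φ t) ^ 2 := by
    intro t
    simp only [hsdef]
    rw [← Complex.exp_nat_mul]
    push_cast
    rw [mul_div_cancel₀ _ (two_ne_zero), Complex.exp_log (Complex.slitPlane_ne_zero (hs t))]
  have hlog : ∀ t, ‖Complex.log (1 - 4 / (φ t) ^ 2) / 2‖ ≤ 3 / 16 := by
    intro t
    have := Complex.norm_log_one_add_half_le_self (z := -(4 / (φ t) ^ 2)) ((hsmall t).trans (by norm_num))
    rw [← sub_eq_add_neg] at this
    rw [norm_div, Complex.norm_ofNat]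
    linarith [hsmall t]
  have hs1 : ∀ t, ‖s t - 1‖ ≤ 3 / 8 := by
    intro t
    have := Complex.norm_exp_sub_one_le (x := Complex.log (1 - 4 / (φ t) ^ 2) / 2) ((hlog t).trans (by norm_num))
    linarith [hlog t]
  have hv : ContDiff ℝ 1 (fun t => (1 + s t) / 2) := (contDiff_const.add hc3).div_const 2
  have hv01 : (fun t => (1 + s t) / 2) 0 = (fun t => (1 + s t) / 2) 1 := by
    simp only [hsdef]
    rw [h01]
  refine ⟨fun t => (1 + s t) / 2, hv, hv01, ?_, ?_⟩
  · intro t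
    have h1 := hs2 t
    have h2 := h0 t
    have h3 : φ t ^ 2 * s t ^ 2 = φ t ^ 2 - 4 := by
      rw [h1]; field_simp
    linear_combination (1/4) * h3
  · have := Rep'.near_one (R := R) hv hv01 (δ := 3/16) (by norm_num) (by
      intro t
      have e : (1 + s t) / 2 - 1 = (s t - 1) / 2 := by ring
      rw [e, norm_div, Complex.norm_ofNat]
      linarith [hs1 t])
    obtain ⟨α, h1, h2, h3, h4⟩ := this
    exact ⟨α, h1, h2, h3, fun t => (h4 t).trans (by norm_num)⟩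

end Pool.Agent.W367.KT
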