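import Pool.Agent.W367.KT.TameY
import Pool.Agent.W367.KT.RepL
set_option autoImplicit false

/-!
The curves `y + 1/y = ∏ (1 - x/a_j)` and their function fields.
-/

namespace Pool.Agent.W367.KT

open Set MeasureTheory intervalIntegral Polynomial
open scoped TensorProduct WithZero Interval

section Defs

variable {K : Type*} [Field K]

/-- `∏_{j=1}^m (1 - X/a_j)` -/
noncomputable def fpoly (a : ℕ → Kˣ) (m : ℕ) : K[X] :=
  ∏ j ∈ Finset.Icc 1 m, (1 - C (((a j)⁻¹ : Kˣ) : K) * X)

/-- `Y ^ 2 - f Y + 1` over the rational function field -/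
noncomputable def qpoly (f : K[X]) : (RatFunc K)[X] :=
  X ^ 2 - C (algebraMap K[X] (RatFunc K) f) * X + 1

theorem natDegree_factor (c : Kˣ) : (1 - C (c : K) * X : K[X]).natDegree = 1 := by
  have : (1 - C (c : K) * X : K[X]) = C (-(c : K)) * X + C 1 := by
    simp only [map_neg, map_one]; ring
  rw [this, natDegree_linear]
  simp

theorem factor_ne_zero (c : Kˣ) : (1 - C (c : K) * X : K[X]) ≠ 0 := by
  intro h
  have := natDegree_factor c
  rw [h, natDegree_zero] at this
  omega

theorem natDegree_fpoly (a : ℕ → Kˣ) (m : ℕ) : (fpoly a m).natDegree = m := by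
  unfold fpoly
  rw [natDegree_prod _ _ (fun _ _ => factor_ne_zero _), Finset.sum_congr rfl (fun _ _ => natDegree_factor _)]
  simp

theorem fpoly_ne_zero (a : ℕ → Kˣ) (m : ℕ) : fpoly a m ≠ 0 :=
  Finset.prod_ne_zero_iff.2 fun j _ => factor_ne_zero _

theorem monic_qpoly (f : K[X]) : (qpoly f).Monic := by
  unfold qpoly
  monicity!

theorem natDegree_qpoly (f : K[X]) : (qpoly f).natDegree = 2 := by
  unfold qpoly
  compute_degree!

theorem irreducible_qpoly (f : K[X]) (hf : f.natDegree ≠ 0) : Irreducible (qpoly f) := by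
  rw [(monic_qpoly f).irreducible_iff_roots_eq_zero_of_degree_le_three (by rw [natDegree_qpoly])
    (by rw [natDegree_qpoly]; norm_num)]
  rw [Multiset.eq_zero_iff_forall_notMem]
  intro r hr
  rw [mem_roots (monic_qpoly f).ne_zero, IsRoot.def] at hr
  have hr' : r ^ 2 - algebraMap K[X] (RatFunc K) f * r + 1 = 0 := by
    simpa [qpoly] using hr
  have hint : IsIntegral K[X] r := by
    refine ⟨X ^ 2 - C f * X + 1, by monicity!, ?_⟩
    simp only [eval₂_add, eval₂_sub, eval₂_mul, eval₂_pow, eval₂_X, eval₂_C, eval₂_one]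
    exact hr'
  obtain ⟨s, rfl⟩ := IsIntegrallyClosed.isIntegral_iff.1 hint
  have h1 : s ^ 2 - f * s + 1 = 0 := by
    apply FaithfulSMul.algebraMap_injective K[X] (RatFunc K)
    rw [map_zero, map_add, map_sub, map_mul, map_pow, map_one]
    exact hr'
  have h2 : s * (f - s) = 1 := by linear_combination -h1
  have h3 : IsUnit s := IsUnit.of_mul_eq_one _ h2
  have h4 : IsUnit (f - s) := IsUnit.of_mul_eq_one s (by rw [mul_comm]; exact h2)
  apply hf
  have e : f = s + (f - s) := by ring
  rw [e]
  obtain ⟨c, hc, hc2⟩ := Polynomial.isUnit_iff.1 h3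
  obtain ⟨d, hd, hd2⟩ := Polynomial.isUnit_iff.1 h4
  rw [← hd2, ← hc2, ← C_add, natDegree_C]

/-- The function field of the curve `y + 1/y = ∏_{j=1}^m (1 - x/a_j)`. -/
abbrev FF (a : ℕ → Kˣ) (m : ℕ) : Type _ := AdjoinRoot (qpoly (fpoly a m))

variable (a : ℕ → Kˣ) (m : ℕ)

noncomputable instance factIrr [hm : NeZero m] : Fact (Irreducible (qpoly (fpoly a m))) :=
  ⟨irreducible_qpoly _ (by rw [natDegree_fpoly]; exact hm.out)⟩

variable [hm : NeZero m]

/-- polynomials in `x` as functions on the curve -/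
noncomputable def iota : K[X] →+* FF a m :=
  (AdjoinRoot.of (qpoly (fpoly a m))).comp (algebraMap K[X] (RatFunc K))

theorem iota_injective : Function.Injective (iota a m) := by
  unfold iota
  rw [RingHom.coe_comp]
  exact (RingHom.injective (AdjoinRoot.of (qpoly (fpoly a m)))).comp
    (FaithfulSMul.algebraMap_injective K[X] (RatFunc K))

/-- a nonzero polynomial as a unit of the function field -/
noncomputable def iu (p : K[X]) (hp : p ≠ 0) : (FF a m)ˣ :=
  Units.mk0 (iota a m p) (by
    intro h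
    apply hp
    apply iota_injective a m
    rw [h, map_zero])

@[simp] theorem coe_iu (p : K[X]) (hp : p ≠ 0) : (iu a m p hp : FF a m) = iota a m p := rfl

/-- the function `x` -/
noncomputable def xF : (FF a m)ˣ := iu a m X X_ne_zero

/-- constants -/
noncomputable def cF : Kˣ →* (FF a m)ˣ := Units.map ((iota a m).comp C : K →+* FF a m).toMonoidHom

/-- the functions `1 - x/a_j` -/
noncomputable def hF (j : ℕ) : (FF a m)ˣ := iu a m (1 - C (((a j)⁻¹ : Kˣ) : K) * X) (factor_ne_zero _)

theorem root_eq : (AdjoinRoot.root (qpoly (fpoly a m))) ^ 2 -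
    iota a m (fpoly a m) * AdjoinRoot.root (qpoly (fpoly a m)) + 1 = 0 := by
  have h := AdjoinRoot.eval₂_root (qpoly (fpoly a m))
  unfold qpoly at h
  simp only [eval₂_add, eval₂_sub, eval₂_mul, eval₂_pow, eval₂_X, eval₂_C, eval₂_one] at h
  exact h

/-- the function `y` -/
noncomputable def yF : (FF a m)ˣ :=
  Units.mk0 (AdjoinRoot.root (qpoly (fpoly a m))) (by
    intro h
    have := root_eq a m
    rw [h] at this
    simp at this)

/-- the abstract data -/
noncomputable def yData : YData (FF a m) where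
  m := m
  hm := Nat.one_le_iff_ne_zero.2 hm.out
  x := xF a m
  a j := cF a m (a j)
  h := hF a m
  hh j := by
    show iota a m (1 - C (((a j)⁻¹ : Kˣ) : K) * X) = 1 - iota a m X / iota a m (C ((a j : Kˣ) : K))
    rw [map_sub, map_one, map_mul, Units.val_inv_eq_inv_val, mul_comm, div_eq_mul_inv]
    congr 2
    apply eq_inv_of_mul_eq_one_left
    rw [← map_mul, ← C_mul, inv_mul_cancel₀ (a j).ne_zero, C_1, map_one]
  y := yF a m
  hy := by
    have h : ((∏ j ∈ Finset.Icc 1 m, hF a m j : (FF a m)ˣ) : FF a m) = iota a m (fpoly a m) := by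
      have e : iota a m (fpoly a m) = ∏ j ∈ Finset.Icc 1 m, iota a m (1 - C (((a j)⁻¹ : Kˣ) : K) * X) :=
        map_prod (iota a m) _ _
      rw [Units.coe_prod, e]
      rfl
    rw [h]
    exact root_eq a m

end Defs

end Pool.Agent.W367.KT
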