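import Mathlib
set_option autoImplicit false

/-!
The Bloch-Wigner function and the vanishing of the regulator integral on Steinberg symbols.
-/

namespace Pool.Agent.W367.KT

open Set MeasureTheory intervalIntegral Filter Topology
open scoped Interval

/-- primitive of a holomorphic function on a domain that is star-shaped around `0` -/
theorem hasDerivAt_prim {S : Set ℂ} (hS : IsOpen S) (hstar : ∀ z ∈ S, ∀ t ∈ Icc (0:ℝ) 1, (t:ℂ) * z ∈ S)
    {g : ℂ → ℂ} (hg : DifferentiableOn ℂ g S) {z : ℂ} (hz : z ∈ S) :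
    HasDerivAt (fun z => ∫ t in (0:ℝ)..1, z * g (t * z)) (g z) z := by
  obtain ⟨r, hr, hrS⟩ := Metric.isOpen_iff.1 hS z hz
  have hg' : ContinuousOn (deriv g) S := (hg.deriv hS).continuousOn
  have hgc : ContinuousOn g S := hg.continuousOn
  have hgd : ∀ w ∈ S, HasDerivAt g (deriv g w) w := fun w hw =>
    (hg.differentiableAt (hS.mem_nhds hw)).hasDerivAt
  have hmaps : MapsTo (fun p : ℂ × ℝ => (p.2 : ℂ) * p.1) (Metric.closedBall z (r/2) ×ˢ Icc (0:ℝ) 1) S := by
    rintro ⟨w, t⟩ ⟨hw, ht⟩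
    exact hstar w (hrS (Metric.closedBall_subset_ball (by linarith) hw)) t ht
  have hcm : ContinuousOn (fun p : ℂ × ℝ => (p.2 : ℂ) * p.1) (Metric.closedBall z (r/2) ×ˢ Icc (0:ℝ) 1) := by
    fun_prop
  have hc1 : ContinuousOn (fun p : ℂ × ℝ => g ((p.2 : ℂ) * p.1)) (Metric.closedBall z (r/2) ×ˢ Icc (0:ℝ) 1) :=
    hgc.comp hcm hmaps
  have hc2 : ContinuousOn (fun p : ℂ × ℝ => deriv g ((p.2 : ℂ) * p.1)) (Metric.closedBall z (r/2) ×ˢ Icc (0:ℝ) 1) :=
    hg'.comp hcm hmaps
  have hF' : ContinuousOn (fun p : ℂ × ℝ => g ((p.2 : ℂ) * p.1) + p.1 * (p.2 * deriv g ((p.2 : ℂ) * p.1)))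
      (Metric.closedBall z (r/2) ×ˢ Icc (0:ℝ) 1) := by
    refine hc1.add (ContinuousOn.mul (by fun_prop) (ContinuousOn.mul (by fun_prop) hc2))
  have hF : ContinuousOn (fun p : ℂ × ℝ => p.1 * g ((p.2 : ℂ) * p.1))
      (Metric.closedBall z (r/2) ×ˢ Icc (0:ℝ) 1) := by
    refine (ContinuousOn.mul (by fun_prop) hc1)
  obtain ⟨C, hC⟩ := ((isCompact_closedBall z (r/2)).prod isCompact_Icc).exists_bound_of_continuousOn hF'
  have hslice : ∀ w ∈ Metric.closedBall z (r/2), ContinuousOn (fun t : ℝ => w * g (t * w)) (Icc 0 1) := by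
    intro w hw
    exact hF.comp (f := fun t : ℝ => (w, t)) (by fun_prop) (fun t ht => ⟨hw, ht⟩)
  have hslice' : ∀ w ∈ Metric.closedBall z (r/2), ContinuousOn (fun t : ℝ => g (t * w) + w * (t * deriv g (t * w))) (Icc 0 1) := by
    intro w hw
    exact hF'.comp (f := fun t : ℝ => (w, t)) (by fun_prop) (fun t ht => ⟨hw, ht⟩)
  have hIoc : Ι (0:ℝ) 1 = Ioc 0 1 := uIoc_of_le zero_le_one
  have main := intervalIntegral.hasDerivAt_integral_of_dominated_loc_of_deriv_le
    (μ := volume) (F := fun w t => w * g (t * w)) (F' := fun w t => g (t * w) + w * (t * deriv g (t * w)))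
    (x₀ := z) (a := (0:ℝ)) (b := 1) (s := Metric.ball z (r/2)) (bound := fun _ => C)
    (Metric.ball_mem_nhds z (by linarith))
    (by
      filter_upwards [Metric.ball_mem_nhds z (show 0 < r/2 by linarith)] with w hw
      rw [hIoc]
      exact ((hslice w (Metric.ball_subset_closedBall hw)).mono Ioc_subset_Icc_self).aestronglyMeasurable
        measurableSet_Ioc)
    (by
      apply ContinuousOn.intervalIntegrable
      rw [uIcc_of_le zero_le_one]
      exact hslice z (Metric.mem_closedBall_self (by linarith)))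
    (by
      rw [hIoc]
      exact ((hslice' z (Metric.mem_closedBall_self (by linarith))).mono Ioc_subset_Icc_self).aestronglyMeasurable
        measurableSet_Ioc)
    (by
      refine Eventually.of_forall fun t ht w hw => ?_
      rw [hIoc] at ht
      exact hC (w, t) ⟨Metric.ball_subset_closedBall hw, Ioc_subset_Icc_self ht⟩)
    (by simp)
    (by
      refine Eventually.of_forall fun t ht w hw => ?_
      rw [hIoc] at ht
      have hw' : (t : ℂ) * w ∈ S := hmaps (show (w, t) ∈ _ from ⟨Metric.ball_subset_closedBall hw, Ioc_subset_Icc_self ht⟩)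
      have h1 : HasDerivAt (fun w : ℂ => (t : ℂ) * w) t w := by
        simpa using (hasDerivAt_id w).const_mul (t : ℂ)
      have h2 := (hgd _ hw').comp w h1
      have h3 : HasDerivAt (fun w : ℂ => w * g (t * w))
        (1 * g (t * w) + w * (deriv g (t * w) * t)) w := (hasDerivAt_id w).mul h2
      exact h3.congr_deriv (by ring))
  have hval : ∫ t in (0:ℝ)..1, (g (t * z) + z * (t * deriv g (t * z))) = g z := by
    have h := intervalIntegral.integral_eq_sub_of_hasDerivAt (f := fun t : ℝ => (t : ℂ) * g (t * z))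
      (f' := fun t : ℝ => (g (t * z) + z * (t * deriv g (t * z)))) (a := 0) (b := 1)
      (by
        intro t ht
        rw [uIcc_of_le zero_le_one] at ht
        have hw' : (t : ℂ) * z ∈ S := hstar z hz t ht
        have h0 : HasDerivAt (fun t : ℝ => (t : ℂ)) 1 t := by
          simpa using (hasDerivAt_id t).ofReal_comp
        have h1 : HasDerivAt (fun t : ℝ => (t : ℂ) * z) z t := by
          simpa using h0.mul_const z
        have h2 := (hgd _ hw').comp_of_eq t h1 rfl
        have h3 : HasDerivAt (fun t : ℝ => (t : ℂ) * g (t * z))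
          (1 * g (t * z) + t * (deriv g (t * z) * z)) t := h0.mul h2
        exact h3.congr_deriv (by ring))
      (by
        apply ContinuousOn.intervalIntegrable
        rw [uIcc_of_le zero_le_one]
        exact hslice' z (Metric.mem_closedBall_self (by linarith)))
    rw [h]
    simp
  have h := main.2
  rw [hval] at h
  exact h

/-- `C` minus the ray `[1, ∞)` -/
def S1 : Set ℂ := {z | 1 - z ∈ Complex.slitPlane}

theorem isOpen_S1 : IsOpen S1 := Complex.isOpen_slitPlane.preimage (by fun_prop)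

theorem star_S1 : ∀ z ∈ S1, ∀ t ∈ Icc (0:ℝ) 1, (t:ℂ) * z ∈ S1 := by
  intro z hz t ht
  have h := StarConvex.add_smul_mem Complex.starConvex_one_slitPlane
    (show (1:ℂ) + (-z) ∈ Complex.slitPlane by simpa [S1, sub_eq_add_neg] using hz) ht.1 ht.2
  show 1 - (t : ℂ) * z ∈ Complex.slitPlane
  have : 1 - (t : ℂ) * z = 1 + t • (-z) := by
    rw [Complex.real_smul]; ring
  rw [this]
  exact h

/-- `-log (1 - z) / z` with the singularity at `0` removed -/
noncomputable def gfun : ℂ → ℂ := dslope (fun z => -Complex.log (1 - z)) 0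

theorem gfun_of_ne {z : ℂ} (hz : z ≠ 0) : gfun z = -Complex.log (1 - z) / z := by
  unfold gfun
  rw [dslope_of_ne _ hz, slope_def_field]
  simp

theorem differentiableOn_gfun : DifferentiableOn ℂ gfun S1 := by
  unfold gfun
  rw [Complex.differentiableOn_dslope]
  · intro z hz
    apply DifferentiableAt.differentiableWithinAt
    have : DifferentiableAt ℂ (fun z => Complex.log (1 - z)) z := by
      apply DifferentiableAt.clog (by fun_prop)
      exact hz
    exact this.neg
  · apply isOpen_S1.mem_nhds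
    show (1:ℂ) - 0 ∈ Complex.slitPlane
    simp

/-- the dilogarithm on `S1` -/
noncomputable def Li (z : ℂ) : ℂ := ∫ t in (0:ℝ)..1, z * gfun (t * z)

theorem hasDerivAt_Li {z : ℂ} (hz : z ∈ S1) : HasDerivAt Li (gfun z) z :=
  hasDerivAt_prim isOpen_S1 star_S1 differentiableOn_gfun hz

theorem Li_neg_one_im : (Li (-1)).im = 0 := by
  have hcont : ContinuousOn (fun t : ℝ => (-1 : ℂ) * gfun (t * (-1))) (Icc 0 1) := by
    refine ContinuousOn.mul continuousOn_const ?_
    refine differentiableOn_gfun.continuousOn.comp (f := fun t : ℝ => (t : ℂ) * (-1)) (by fun_prop) ?_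
    intro t ht
    apply star_S1 (-1) _ t ht
    show (1 : ℂ) - (-1) ∈ Complex.slitPlane
    left; norm_num
  have hint : IntervalIntegrable (fun t : ℝ => (-1 : ℂ) * gfun (t * (-1))) volume 0 1 := by
    apply ContinuousOn.intervalIntegrable
    rwa [uIcc_of_le zero_le_one]
  have h := Complex.imCLM.intervalIntegral_comp_comm hint
  unfold Li
  have h2 : (∫ t in (0:ℝ)..1, (-1 : ℂ) * gfun (t * (-1))).im = ∫ t in (0:ℝ)..1, Complex.imCLM ((-1 : ℂ) * gfun (t * (-1))) := h.symm
  rw [h2]
  rw [intervalIntegral.integral_congr_ae (g := fun _ => (0:ℝ))]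
  · simp
  · refine Eventually.of_forall fun t ht => ?_
    rw [uIoc_of_le zero_le_one] at ht
    have ht0 : (t : ℂ) * (-1) ≠ 0 := by
      simpa using ht.1.ne'
    rw [gfun_of_ne ht0]
    have h3 : (1 : ℂ) - (t : ℂ) * (-1) = ((1 + t : ℝ) : ℂ) := by push_cast; ring
    rw [h3, ← Complex.ofReal_log (by linarith [ht.1])]
    have h4 : (-1 : ℂ) * (-(Real.log (1 + t) : ℂ) / ((t : ℂ) * (-1))) = ((-(Real.log (1+t)) / t : ℝ) : ℂ) := by
      push_cast
      have : (t : ℂ) ≠ 0 := by simpa using ht0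
      field_simp
    rw [h4]
    simp

theorem hd_re {f : ℝ → ℂ} {f' : ℂ} {t : ℝ} (h : HasDerivAt f f' t) :
    HasDerivAt (fun s => (f s).re) f'.re t := Complex.reCLM.hasFDerivAt.comp_hasDerivAt t h

theorem hd_im {f : ℝ → ℂ} {f' : ℂ} {t : ℝ} (h : HasDerivAt f f' t) :
    HasDerivAt (fun s => (f s).im) f'.im t := Complex.imCLM.hasFDerivAt.comp_hasDerivAt t h

/-- derivative of `log |u|` along a path -/
theorem hasDerivAt_logNorm {u : ℝ → ℂ} {u' : ℂ} {t : ℝ} (hu : HasDerivAt u u' t) (h0 : u t ≠ 0) :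
    HasDerivAt (fun s => Real.log ‖u s‖) (u' / u t).re t := by
  have h1 : HasDerivAt (fun s => u s / u t) (u' / u t) t := hu.div_const _
  have hsl : u t / u t ∈ Complex.slitPlane := by rw [div_self h0]; simp
  have h2 : HasDerivAt (fun s => Complex.log (u s / u t)) (u' / u t) t := by
    have := h1.clog_real hsl
    rw [div_self h0, div_one] at this
    exact this
  have h3 : HasDerivAt (fun s => (Complex.log (u s / u t)).re) (u' / u t).re t := hd_re h2
  have h4 : HasDerivAt (fun s => (Complex.log (u s / u t)).re + Real.log ‖u t‖) (u' / u t).re t := by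
    simpa using h3.add_const (Real.log ‖u t‖)
  refine h4.congr_of_eventuallyEq ?_
  filter_upwards [hu.continuousAt.eventually_ne h0] with s hs
  rw [Complex.log_re, norm_div, Real.log_div (norm_ne_zero_iff.2 hs) (norm_ne_zero_iff.2 h0)]
  ring

/-- the regulator form `log|u| d arg (1-u) - log|1-u| d arg u` along a path -/
noncomputable def eta (z z' : ℂ) : ℝ :=
  Real.log ‖z‖ * (-z' / (1 - z)).im - Real.log ‖1 - z‖ * (z' / z).im

/-- Bloch-Wigner function on `S1` -/
noncomputable def D1 (z : ℂ) : ℝ := (Li z).im + (Complex.log (1 - z)).im * Real.log ‖z‖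

theorem hasDerivAt_D1 {u : ℝ → ℂ} {u' : ℂ} {t : ℝ} (hu : HasDerivAt u u' t) (h0 : u t ≠ 0)
    (h1 : u t ∈ S1) : HasDerivAt (fun s => D1 (u s)) (eta (u t) u') t := by
  have hL : HasDerivAt (fun s => Li (u s)) (gfun (u t) * u') t := (hasDerivAt_Li h1).comp t hu
  have hL' : HasDerivAt (fun s => (Li (u s)).im) (gfun (u t) * u').im t := hd_im hL
  have hA : HasDerivAt (fun s => 1 - u s) (-u') t := by
    simpa using hu.const_sub 1
  have hA2 : HasDerivAt (fun s => Complex.log (1 - u s)) (-u' / (1 - u t)) t := hA.clog_real h1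
  have hA' : HasDerivAt (fun s => (Complex.log (1 - u s)).im) (-u' / (1 - u t)).im t := hd_im hA2
  have hB := hasDerivAt_logNorm hu h0
  have h := hL'.add (hA'.mul hB)
  refine h.congr_deriv ?_
  rw [gfun_of_ne h0]
  unfold eta
  have e1 : -Complex.log (1 - u t) / u t * u' = -(Complex.log (1 - u t) * (u' / u t)) := by
    field_simp
  rw [e1, Complex.neg_im, Complex.mul_im, Complex.log_re]
  ring

/-- `z ≠ 0` and `1/z ∈ S1` -/
def S2 : Set ℂ := {z | z ≠ 0 ∧ z⁻¹ ∈ S1}

theorem isOpen_S2 : IsOpen S2 := by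
  rw [isOpen_iff_mem_nhds]
  rintro z ⟨h0, h1⟩
  have hc : ContinuousAt (fun z : ℂ => z⁻¹) z := continuousAt_inv₀ h0
  filter_upwards [isOpen_ne.mem_nhds h0, hc.preimage_mem_nhds (isOpen_S1.mem_nhds h1)] with w h2 h3
  exact ⟨h2, h3⟩

/-- Bloch-Wigner function on `S2` -/
noncomputable def D2 (z : ℂ) : ℝ := - D1 z⁻¹

theorem hasDerivAt_D2 {u : ℝ → ℂ} {u' : ℂ} {t : ℝ} (hu : HasDerivAt u u' t)
    (h1 : u t ≠ 1) (h2 : u t ∈ S2) : HasDerivAt (fun s => D2 (u s)) (eta (u t) u') t := by
  have h0 := h2.1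
  have hi : HasDerivAt (fun s => (u s)⁻¹) (-u' / (u t) ^ 2) t := hu.inv h0
  have h := (hasDerivAt_D1 hi (inv_ne_zero h0) h2.2).neg
  refine h.congr_deriv ?_
  unfold eta
  have h10 : 1 - u t ≠ 0 := sub_ne_zero.2 (Ne.symm h1)
  have hu1 : u t - 1 ≠ 0 := sub_ne_zero.2 h1
  have e1 : -(-u' / u t ^ 2) / (1 - (u t)⁻¹) = -u' / (1 - u t) - u' / u t := by
    have : 1 - (u t)⁻¹ = (u t - 1) / u t := by field_simp
    rw [this]
    field_simp
    ring
  have e2 : -u' / u t ^ 2 / (u t)⁻¹ = -(u' / u t) := by field_simp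
  have e3 : Real.log ‖1 - (u t)⁻¹‖ = Real.log ‖1 - u t‖ - Real.log ‖u t‖ := by
    have : 1 - (u t)⁻¹ = -(1 - u t) / u t := by field_simp; ring
    rw [this, norm_div, norm_neg, Real.log_div (norm_ne_zero_iff.2 h10) (norm_ne_zero_iff.2 h0)]
  rw [e1, e2, e3, norm_inv, Real.log_inv, Complex.sub_im, Complex.neg_im]
  ring

theorem mem_neg_slit_of {z : ℂ} (h1 : z ∈ S1) (h2 : z ∈ S2) : -z ∈ Complex.slitPlane := by
  obtain ⟨h0, h3⟩ := h2
  unfold S1 at h1 h3
  simp only [Set.mem_ofPred_eq, Complex.mem_slitPlane_iff, Complex.sub_re, Complex.sub_im,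
    Complex.one_re, Complex.one_im, zero_sub, neg_ne_zero] at h1 h3
  simp only [Complex.mem_slitPlane_iff, Complex.neg_re, Complex.neg_im, neg_ne_zero]
  by_cases him : z.im = 0
  · left
    have hz : z = ((z.re : ℝ) : ℂ) := by
      apply Complex.ext <;> simp [him]
    have hre0 : z.re ≠ 0 := by
      intro h
      apply h0
      rw [hz, h]; simp
    rcases h1 with h1 | h1
    · have h4 : 0 < 1 - (z.re)⁻¹ := by
        rw [hz] at h3
        rw [← Complex.ofReal_inv] at h3
        simpa using h3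
      by_contra hcon
      have hpos : 0 < z.re := lt_of_le_of_ne (by linarith) (Ne.symm hre0)
      have : 1 ≤ (z.re)⁻¹ := by
        rw [one_le_inv₀ hpos]; linarith
      linarith
    · exact absurd him h1
  · right; exact him

theorem mem_S1_of_neg_slit {z : ℂ} (h : -z ∈ Complex.slitPlane) : z ∈ S1 := by
  unfold S1
  simp only [Complex.mem_slitPlane_iff, Complex.neg_re, Complex.neg_im, neg_ne_zero] at h
  simp only [Set.mem_ofPred_eq, Complex.mem_slitPlane_iff, Complex.sub_re, Complex.sub_im,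
    Complex.one_re, Complex.one_im, zero_sub, neg_ne_zero]
  rcases h with h | h
  · left; linarith
  · right; exact h

theorem mem_S2_of_neg_slit {z : ℂ} (h : -z ∈ Complex.slitPlane) : z ∈ S2 := by
  have h0 : z ≠ 0 := by
    rintro rfl
    simp at h
  refine ⟨h0, mem_S1_of_neg_slit ?_⟩
  simp only [Complex.mem_slitPlane_iff, Complex.neg_re, Complex.neg_im, neg_ne_zero,
    Complex.inv_re, Complex.inv_im] at h ⊢
  have hn : 0 < Complex.normSq z := Complex.normSq_pos.2 h0
  rcases h with h | h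
  · left
    have : -(z.re / Complex.normSq z) = (-z.re) / Complex.normSq z := by ring
    rw [this]
    positivity
  · right
    simp [h, hn.ne']

theorem mem_S2_of_not_mem_S1 {z : ℂ} (h1 : z ≠ 1) (h : z ∉ S1) : z ∈ S2 := by
  unfold S1 at h
  simp only [Set.mem_ofPred_eq, Complex.mem_slitPlane_iff, Complex.sub_re, Complex.sub_im,
    Complex.one_re, Complex.one_im, zero_sub, neg_ne_zero, not_or, not_not, not_lt] at h
  obtain ⟨h2, h3⟩ := h
  have hz : z = ((z.re : ℝ) : ℂ) := by
    apply Complex.ext <;> simp [h3]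
  have hre : 1 < z.re := by
    rcases lt_or_eq_of_le (show (1:ℝ) ≤ z.re by linarith) with h | h
    · exact h
    · exact absurd (by rw [hz, ← h]; simp) h1
  refine ⟨fun h => by rw [h] at hre; norm_num at hre, ?_⟩
  show 1 - z⁻¹ ∈ Complex.slitPlane
  left
  rw [hz, ← Complex.ofReal_inv]
  simp only [Complex.sub_re, Complex.one_re, Complex.ofReal_re]
  have : (z.re)⁻¹ < 1 := inv_lt_one_of_one_lt₀ hre
  linarith

theorem is_const_of_deriv_eq_zero_on_Icc (φ : ℝ → ℝ) (h : ∀ s ∈ Icc (0:ℝ) 1, HasDerivAt φ 0 s) :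
    φ 1 = φ 0 := by
  have := intervalIntegral.integral_eq_sub_of_hasDerivAt (f := φ) (f' := fun _ => (0:ℝ)) (a := 0) (b := 1)
    (fun t ht => h t (by rwa [uIcc_of_le zero_le_one] at ht)) (by simp)
  simp at this
  linarith

theorem D1_eq_D2 {z : ℂ} (hz : -z ∈ Complex.slitPlane) : D1 z = D2 z := by
  -- path from -1 to z
  have hpath : ∀ s ∈ Icc (0:ℝ) 1, -((-1 : ℂ) + s * (z + 1)) ∈ Complex.slitPlane := by
    intro s hs
    have h := StarConvex.add_smul_mem Complex.starConvex_one_slitPlane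
      (show (1:ℂ) + (-z - 1) ∈ Complex.slitPlane by simpa using hz) hs.1 hs.2
    have : -((-1 : ℂ) + s * (z + 1)) = 1 + s • (-z - 1) := by
      rw [Complex.real_smul]; ring
    rw [this]; exact h
  have hder : ∀ s : ℝ, HasDerivAt (fun s : ℝ => (-1 : ℂ) + s * (z + 1)) (z + 1) s := by
    intro s
    have h0 : HasDerivAt (fun t : ℝ => (t : ℂ)) 1 s := by
      simpa using (hasDerivAt_id s).ofReal_comp
    simpa using (h0.mul_const (z + 1)).const_add (-1 : ℂ)
  set φ : ℝ → ℝ := fun s => D1 ((-1 : ℂ) + s * (z + 1)) - D2 ((-1 : ℂ) + s * (z + 1)) with hφ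
  have hφd : ∀ s ∈ Icc (0:ℝ) 1, HasDerivAt φ 0 s := by
    intro s hs
    have hm := hpath s hs
    have hS1 := mem_S1_of_neg_slit hm
    have hS2 := mem_S2_of_neg_slit hm
    have hne1 : (-1 : ℂ) + s * (z + 1) ≠ 1 := by
      intro h
      rw [h] at hS1
      unfold S1 at hS1
      simp at hS1
    have := (hasDerivAt_D1 (hder s) hS2.1 hS1).sub (hasDerivAt_D2 (hder s) hne1 hS2)
    exact this.congr_deriv (sub_self _)
  have hconst : φ 1 = φ 0 := by
    have := is_const_of_deriv_eq_zero_on_Icc φ hφd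
    exact this
  have e1 : φ 1 = D1 z - D2 z := by
    simp only [hφ]
    rw [show (-1 : ℂ) + ((1:ℝ):ℂ) * (z + 1) = z by push_cast; ring]
  have e0 : φ 0 = 0 := by
    simp only [hφ]
    rw [show (-1 : ℂ) + ((0:ℝ):ℂ) * (z + 1) = -1 by push_cast; ring]
    unfold D2 D1
    have : ((-1 : ℂ))⁻¹ = -1 := by norm_num
    rw [this, Li_neg_one_im]
    simp
  linarith [hconst, e1, e0]

/-- the Bloch-Wigner function -/
noncomputable def BW (z : ℂ) : ℝ := open Classical in if z ∈ S1 then D1 z else D2 z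

theorem hasDerivAt_BW {u : ℝ → ℂ} {u' : ℂ} {t : ℝ} (hu : HasDerivAt u u' t)
    (h0 : u t ≠ 0) (h1 : u t ≠ 1) : HasDerivAt (fun s => BW (u s)) (eta (u t) u') t := by
  by_cases h : u t ∈ S1
  · refine (hasDerivAt_D1 hu h0 h).congr_of_eventuallyEq ?_
    filter_upwards [hu.continuousAt.preimage_mem_nhds (isOpen_S1.mem_nhds h)] with s hs
    exact if_pos hs
  · have h2 := mem_S2_of_not_mem_S1 h1 h
    refine (hasDerivAt_D2 hu h1 h2).congr_of_eventuallyEq ?_
    filter_upwards [hu.continuousAt.preimage_mem_nhds (isOpen_S2.mem_nhds h2)] with s hs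
    unfold BW
    split_ifs with hS
    · exact D1_eq_D2 (mem_neg_slit_of hS hs)
    · rfl

/-- The regulator integral of a Steinberg symbol along a closed path vanishes. -/
theorem integral_eta_eq_zero {u : ℝ → ℂ} (hu : ContDiff ℝ 1 u) (h0 : ∀ t, u t ≠ 0)
    (h1 : ∀ t, u t ≠ 1) (hper : u 0 = u 1) :
    ∫ t in (0:ℝ)..1, eta (u t) (deriv u t) = 0 := by
  have hd : ∀ t, HasDerivAt u (deriv u t) t := fun t =>
    ((hu.differentiable (by norm_num)) t).hasDerivAt
  have hc : Continuous u := hu.continuous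
  have hc' : Continuous (deriv u) := hu.continuous_deriv (by norm_num)
  have h1' : ∀ t, 1 - u t ≠ 0 := fun t => sub_ne_zero.2 (Ne.symm (h1 t))
  have hcont : Continuous fun t => eta (u t) (deriv u t) := by
    unfold eta
    refine Continuous.sub (Continuous.mul ?_ ?_) (Continuous.mul ?_ ?_)
    · exact Continuous.log hc.norm (fun t => norm_ne_zero_iff.2 (h0 t))
    · exact Complex.continuous_im.comp (hc'.neg.div (continuous_const.sub hc) h1')
    · exact Continuous.log (continuous_const.sub hc).norm (fun t => norm_ne_zero_iff.2 (h1' t))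
    · exact Complex.continuous_im.comp (hc'.div hc h0)
  rw [intervalIntegral.integral_eq_sub_of_hasDerivAt (f := fun t => BW (u t))
    (fun t _ => hasDerivAt_BW (hd t) (h0 t) (h1 t)) (hcont.intervalIntegrable _ _)]
  rw [hper, sub_self]

end Pool.Agent.W367.KT
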