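import Pool.Agent.W367.KT.Loops
set_option autoImplicit false

/-!
Regulator estimates for the classes `{C (1 - x/a_k)^2, y}`, `a_j = ε^{jN}`.
-/

namespace Pool.Agent.W367.KT

open Set MeasureTheory intervalIntegral Polynomial
open scoped TensorProduct WithZero Interval

section Defs

variable {K : Type*} [Field K]

/-- the parameters `a_j = ε^{jN}` -/
noncomputable def au (ε : Kˣ) (N : ℕ) (j : ℕ) : Kˣ := ε ^ (j * N)

/-- the constants `C_k = ε^{N (2k - (m+1))}` -/
noncomputable def Ck (ε : Kˣ) (N m k : ℕ) : Kˣ := ε ^ ((N : ℤ) * (2 * k - (m + 1)))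

variable (a : ℕ → Kˣ) (m : ℕ) [hm : NeZero m]

/-- the functions `x` (`k = 0`) and `1 - x/a_k` (`k ≥ 1`) -/
noncomputable def HF (k : ℕ) : (FF a m)ˣ := if k = 0 then xF a m else hF a m k

end Defs

/-- the limit of the regulator -/
noncomputable def mu (m : ℕ) (J : Finset ℕ) (k : ℕ) : ℝ :=
  if k = 0 ∨ k ∈ J then 2 * (∑ j ∈ J, (j : ℝ)) - J.card * (m + 1) else J.card * (2 * k - (m + 1))

variable {K : Type*} [Field K] [NumberField K] (σ : K →+* ℂ) (ε : Kˣ) (N : ℕ) (m : ℕ) [hm : NeZero m]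

theorem log_norm_zpow (n : ℤ) : Real.log ‖σ ((ε ^ n : Kˣ) : K)‖ = n * Real.log ‖σ (ε : K)‖ := by
  rw [Units.val_zpow_eq_zpow_val, map_zpow₀, norm_zpow, Real.log_zpow]

theorem log_norm_au (j : ℕ) : Real.log ‖σ (au ε N j : K)‖ = j * (N * Real.log ‖σ (ε : K)‖) := by
  unfold au
  rw [← zpow_natCast, log_norm_zpow]
  push_cast
  ring

theorem log_norm_Ck (k : ℕ) :
    Real.log ‖σ (Ck ε N m k : K)‖ = (2 * k - (m + 1)) * (N * Real.log ‖σ (ε : K)‖) := by
  unfold Ck
  rw [log_norm_zpow]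
  push_cast
  ring

/-- the main estimate -/
theorem exists_loop_est {R : ℝ} (hR : 0 < R) (hT : Transcendental ℚ R) (J : Finset ℕ) (hJn : J.Nonempty)
    {ρ : ℝ} (hρ : 4 * Real.exp m ≤ ρ)
    (h1 : ∀ j ∈ J, ρ * ‖σ (au ε N j)‖ ≤ R)
    (h2 : ∀ j ∈ Finset.Icc 1 m, j ∉ J → ρ * R ≤ ‖σ (au ε N j)‖) (hJ : J ⊆ Finset.Icc 1 m) :
    ∃ γ : Loop (FF (au ε N) m), ∀ k ≤ m,
      |γ.pair (cF (au ε N) m (Ck ε N m k) * HF (au ε N) m k ^ 2) (yF (au ε N) m) -
        2 * Real.pi * (N * Real.log ‖σ (ε : K)‖) * mu m J k| ≤ 12 * Real.pi * (m + 1) := by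
  obtain ⟨γ, hγ, β, b1, b2, b3, b4⟩ := exists_loop σ (au ε N) m hR hT J hJn hρ h1 h2 hJ
  refine ⟨γ, ?_⟩
  have hρ2 : 2 ≤ ρ := by
    have : 1 ≤ Real.exp m := Real.one_le_exp (by positivity)
    linarith
  set L := N * Real.log ‖σ (ε : K)‖ with hL
  have hcf := cJ_ne_zero σ (au ε N) m J
  have hlogcf : Real.log ‖cJ σ (au ε N) m J‖ = -((∑ j ∈ J, (j : ℝ)) * L) := by
    rw [log_norm_cJ σ (au ε N) m J hJ, Finset.sum_mul]
    congr 1
    apply Finset.sum_congr rfl
    intro j _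
    rw [log_norm_au]
  have hn : (J.card : ℝ) ≤ m := by
    have := Finset.card_le_card hJ
    rw [Nat.card_Icc, Nat.add_sub_cancel] at this
    exact_mod_cast this
  have hn0 : (0 : ℝ) ≤ J.card := by positivity
  have hm0 : (0 : ℝ) ≤ m := by positivity
  -- general estimate
  have gen : ∀ (A : (FF (au ε N) m)ˣ) (c : ℂ) (hc : c ≠ 0) (p : ℤ) (A0 A1 : ℝ),
      Rep R (fun t => γ.e t (A : FF (au ε N) m)) c p A0 A1 →
      |γ.pair A (yF (au ε N) m) - 2 * Real.pi * (J.card * Real.log ‖c‖ + p * ((∑ j ∈ J, (j : ℝ)) * L))| ≤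
        2 * Real.pi * |(p:ℝ)| * (m + 1) + 2 * Real.pi * J.card * A0 + (m + 1) * A1 := by
    rintro A c hc p A0 A1 ⟨α, k1, k2, k3, k4, k5⟩
    have := pair_estimate γ A (yF (au ε N) m) hR hc hcf p J.card k1 b1 k2 b2 k3 b3 k4 k5 b4
    rw [hlogcf] at this
    have e : ((J.card : ℤ) : ℝ) * Real.log ‖c‖ - (p:ℝ) * -((∑ j ∈ J, (j : ℝ)) * L) =
      J.card * Real.log ‖c‖ + p * ((∑ j ∈ J, (j : ℝ)) * L) := by push_cast; ring
    rw [e] at this
    have e2 : |(((J.card : ℤ) : ℝ))| = J.card := by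
      push_cast
      exact abs_of_nonneg hn0
    rw [e2] at this
    exact this
  -- constants
  have hconst : ∀ c : Kˣ, γ.pair (cF (au ε N) m c) (yF (au ε N) m) = 2 * Real.pi * (J.card * Real.log ‖σ (c : K)‖) := by
    intro c
    have h := gen (cF (au ε N) m c) (σ (c : K)) (sigma_ne σ c) 0 0 0
      ((Rep.const R (σ (c : K))).congr (fun t => by
        have := hγ (C (c : K)) t
        rw [eval₂_C] at this
        exact this.symm) rfl rfl le_rfl le_rfl)
    simp only [Int.cast_zero, abs_zero, mul_zero, zero_mul, add_zero] at h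
    have := abs_nonpos_iff.1 h
    linarith
  intro k hk
  have hsplit : γ.pair (cF (au ε N) m (Ck ε N m k) * HF (au ε N) m k ^ 2) (yF (au ε N) m) =
      2 * Real.pi * (J.card * ((2 * k - (m + 1)) * L)) + 2 * γ.pair (HF (au ε N) m k) (yF (au ε N) m) := by
    rw [γ.pair_mul_left, hconst, log_norm_Ck, pow_two, γ.pair_mul_left]
    ring
  rw [hsplit]
  have hpi := Real.pi_pos
  by_cases h0 : k = 0
  · -- the function x
    have hH : HF (au ε N) m k = xF (au ε N) m := if_pos h0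
    have h := gen (xF (au ε N) m) 1 one_ne_zero 1 0 0 ((Rep.x R).congr (fun t => by
        have := hγ X t
        rw [eval₂_X] at this
        exact this.symm) rfl rfl le_rfl le_rfl)
    rw [hH]
    have hmu : mu m J k = 2 * (∑ j ∈ J, (j : ℝ)) - J.card * (m + 1) := if_pos (Or.inl h0)
    rw [hmu, h0]
    simp only [norm_one, Real.log_one, mul_zero, zero_add, Int.cast_one, one_mul, abs_one, mul_one,
      add_zero] at h
    rw [abs_le] at h ⊢
    push_cast
    constructor <;> nlinarith [h.1, h.2, mul_nonneg hpi.le hm0]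
  · have hH : HF (au ε N) m k = hF (au ε N) m k := if_neg h0
    rw [hH]
    have hkm : k ∈ Finset.Icc 1 m := Finset.mem_Icc.2 ⟨Nat.one_le_iff_ne_zero.2 h0, hk⟩
    have hev : ∀ t, γ.e t (hF (au ε N) m k : FF (au ε N) m) = 1 - (σ (au ε N k))⁻¹ * circ R t := by
      intro t
      have := hγ (1 - C (((au ε N k)⁻¹ : Kˣ) : K) * X) t
      rw [eval_factor] at this
      exact this
    by_cases hkJ : k ∈ J
    · have hR2 : 2 * ‖σ (au ε N k : K)‖ ≤ R :=
        (mul_le_mul_of_nonneg_right hρ2 (norm_nonneg _)).trans (h1 k hkJ)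
      have h := gen (hF (au ε N) m k) (-(σ (au ε N k))⁻¹) (neg_ne_zero.2 (inv_ne_zero (sigma_ne σ _))) 1 1
        (2 * Real.pi) ((rep_factor_in hR (sigma_ne σ _) hR2).congr (fun t => (hev t).symm) rfl rfl le_rfl le_rfl)
      have hmu : mu m J k = 2 * (∑ j ∈ J, (j : ℝ)) - J.card * (m + 1) := if_pos (Or.inr hkJ)
      rw [hmu]
      rw [norm_neg, norm_inv, Real.log_inv, log_norm_au, ← hL] at h
      simp only [Int.cast_one, one_mul, abs_one, mul_one] at h
      rw [abs_le] at h ⊢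
      have h3 := mul_le_mul_of_nonneg_left hn hpi.le
      constructor <;> nlinarith [h.1, h.2, mul_nonneg hpi.le hm0, mul_nonneg hpi.le hn0]
    · have hR2 : 2 * R ≤ ‖σ (au ε N k : K)‖ :=
        (mul_le_mul_of_nonneg_right hρ2 hR.le).trans (h2 k hkm hkJ)
      have h := gen (hF (au ε N) m k) 1 one_ne_zero 0 1
        (2 * Real.pi) ((rep_factor_out hR (sigma_ne σ _) hR2).congr (fun t => (hev t).symm) rfl rfl le_rfl le_rfl)
      have hmu : mu m J k = J.card * (2 * k - (m + 1)) := if_neg (by tauto)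
      rw [hmu]
      simp only [norm_one, Real.log_one, mul_zero, zero_add, Int.cast_zero, zero_mul, abs_zero, mul_one,
        add_zero, sub_zero] at h
      rw [abs_le] at h ⊢
      have h3 := mul_le_mul_of_nonneg_left hn hpi.le
      constructor <;> nlinarith [h.1, h.2, mul_nonneg hpi.le hm0, mul_nonneg hpi.le hn0]

end Pool.Agent.W367.KT
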