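import Pool.Agent.W367.KT.Est
set_option autoImplicit false

/-!
The limit matrix of the regulators is nonsingular.
-/

namespace Pool.Agent.W367.KT

open Finset

theorem sum_Icc_one (i : ℕ) : 2 * (∑ j ∈ Icc 1 i, (j : ℝ)) = i * (i + 1) := by
  induction i with
  | zero => simp
  | succ n ih =>
    rw [Finset.sum_Icc_succ_top (by omega), mul_add, ih]
    push_cast
    ring

theorem mu_Icc_one {m i k : ℕ} :
    mu m (Icc 1 i) k = i * (if k ≤ i then ((i:ℝ) - m) else (2 * k - (m + 1))) := by
  unfold mu
  have hc : (k = 0 ∨ k ∈ Icc 1 i) ↔ k ≤ i := by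
    rw [Finset.mem_Icc]; omega
  by_cases h : k ≤ i
  · rw [if_pos (hc.2 h), if_pos h, sum_Icc_one, Nat.card_Icc, Nat.add_sub_cancel]
    ring
  · rw [if_neg (fun h' => h (hc.1 h')), if_neg h, Nat.card_Icc, Nat.add_sub_cancel]

theorem sum_Icc_two {m : ℕ} (hm : 1 ≤ m) : (∑ j ∈ Icc 2 m, (j : ℝ)) = (∑ j ∈ Icc 1 m, (j : ℝ)) - 1 := by
  have h : Icc 1 m = insert 1 (Icc 2 m) := by
    ext x; simp only [Finset.mem_insert, Finset.mem_Icc]; omega
  rw [h, Finset.sum_insert (by simp)]
  push_cast; ring

theorem mu_Icc_two {m k : ℕ} (hm : 2 ≤ m) (hk : k ≤ m) :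
    mu m (Icc 2 m) k = (m - 1) * (if k = 1 then (1 - (m:ℝ)) else 1) := by
  unfold mu
  have hc : (k = 0 ∨ k ∈ Icc 2 m) ↔ k ≠ 1 := by
    rw [Finset.mem_Icc]; omega
  have hcard : ((Icc 2 m).card : ℝ) = m - 1 := by
    rw [Nat.card_Icc]
    have : m + 1 - 2 = m - 1 := by omega
    rw [this, Nat.cast_sub (by omega)]
    simp
  by_cases h : k = 1
  · rw [if_neg (fun h' => (hc.1 h') h), if_pos h, hcard, h]
    push_cast; ring
  · rw [if_pos (hc.2 h), if_neg h, hcard, sum_Icc_two (by omega), mul_sub, sum_Icc_one]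
    ring

/-- the sets of inner roots for the `m` paths -/
def Jset (m : ℕ) (i : ℕ) : Finset ℕ := if i + 1 < m then Icc 1 (i + 1) else Icc 2 m

/-- the limit matrix -/
noncomputable def Minf (m : ℕ) (ℓ ℓ' : ℝ) : Matrix (Fin m) (Fin m) ℝ :=
  Matrix.of fun i k => (if (i : ℕ) + 1 < m then ℓ else ℓ') * mu m (Jset m i) k

theorem kernel_zero {m : ℕ} (hm : 2 ≤ m) (v : ℕ → ℝ)
    (h1 : ∀ i, 1 ≤ i → i < m → ∑ k ∈ range m, mu m (Icc 1 i) k * v k = 0)
    (h2 : ∑ k ∈ range m, mu m (Icc 2 m) k * v k = 0) : ∀ k < m, v k = 0 := by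
  -- simplified equations
  have e1 : ∀ i, 1 ≤ i → i < m → ∑ k ∈ range m, (if k ≤ i then ((i:ℝ) - m) else (2 * k - (m + 1))) * v k = 0 := by
    intro i hi1 hi2
    have := h1 i hi1 hi2
    simp only [mu_Icc_one, mul_assoc] at this
    rw [← Finset.mul_sum] at this
    have hi0 : (i : ℝ) ≠ 0 := by
      have : i ≠ 0 := by omega
      exact_mod_cast this
    exact (mul_eq_zero.1 this).resolve_left hi0
  set P : ℕ → ℝ := fun i => ∑ k ∈ range (i + 1), v k with hP
  -- differences
  have e2 : ∀ i, 2 ≤ i → i < m → P (i - 1) + (1 - (i:ℝ)) * v i = 0 := by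
    intro i hi1 hi2
    have a1 := e1 i (by omega) hi2
    have a2 := e1 (i - 1) (by omega) (by omega)
    have hsub : ∑ k ∈ range m, ((if k ≤ i then ((i:ℝ) - m) else (2 * k - (m + 1))) * v k -
        (if k ≤ i - 1 then (((i - 1 : ℕ):ℝ) - m) else (2 * k - (m + 1))) * v k) = 0 := by
      rw [Finset.sum_sub_distrib, a1, a2, sub_zero]
    have hterm : ∀ k ∈ range m, ((if k ≤ i then ((i:ℝ) - m) else (2 * k - (m + 1))) * v k -
        (if k ≤ i - 1 then (((i - 1 : ℕ):ℝ) - m) else (2 * k - (m + 1))) * v k) =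
        (if k < i then v k else 0) + (if k = i then (1 - (i:ℝ)) * v i else 0) := by
      intro k _
      have hc : ((i - 1 : ℕ) : ℝ) = i - 1 := by rw [Nat.cast_sub (by omega)]; simp
      rcases lt_trichotomy k i with h | h | h
      · rw [if_pos (by omega), if_pos (by omega), if_pos h, if_neg (by omega), hc]; ring
      · subst h
        rw [if_pos le_rfl, if_neg (by omega), if_neg (by omega), if_pos rfl]; ring
      · rw [if_neg (by omega), if_neg (by omega), if_neg (by omega), if_neg (by omega)]; ring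
    rw [Finset.sum_congr rfl hterm, Finset.sum_add_distrib, Finset.sum_ite_eq', if_pos (Finset.mem_range.2 hi2)] at hsub
    have hPs : ∑ k ∈ range m, (if k < i then v k else 0) = P (i - 1) := by
      rw [← Finset.sum_filter]
      simp only [hP]
      congr 1
      ext k
      simp only [Finset.mem_filter, Finset.mem_range]
      omega
    rw [hPs] at hsub
    exact hsub
  -- top
  have e3 : P (m - 1) = 0 := by
    have := e1 (m - 1) (by omega) (by omega)
    have hterm : ∀ k ∈ range m, (if k ≤ m - 1 then (((m - 1 : ℕ):ℝ) - m) else (2 * k - (m + 1))) * v k = - v k := by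
      intro k hk
      rw [Finset.mem_range] at hk
      have hc : ((m - 1 : ℕ) : ℝ) = m - 1 := by rw [Nat.cast_sub (by omega)]; simp
      rw [if_pos (by omega), hc]; ring
    rw [Finset.sum_congr rfl hterm, Finset.sum_neg_distrib, neg_eq_zero] at this
    simp only [hP]
    rw [show m - 1 + 1 = m by omega]
    exact this
  -- downward induction
  have e4 : ∀ d i, i + d = m - 1 → 1 ≤ i → P i = 0 := by
    intro d
    induction d with
    | zero =>
      intro i hi _
      rw [show i = m - 1 by omega]
      exact e3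
    | succ d ih =>
      intro i hi hi1
      have hnext := ih (i + 1) (by omega) (by omega)
      have hd := e2 (i + 1) (by omega) (by omega)
      rw [Nat.add_sub_cancel] at hd
      have hPi : P (i + 1) = P i + v (i + 1) := by
        simp only [hP]
        rw [Finset.sum_range_succ]
      have h3 : ((i:ℝ) + 1) * v (i + 1) = 0 := by
        push_cast at hd
        linarith
      have h4 : v (i + 1) = 0 := by
        rcases mul_eq_zero.1 h3 with h | h
        · exfalso
          have : (0:ℝ) ≤ i := by positivity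
          linarith
        · exact h
      linarith
  have e5 : ∀ i, 1 ≤ i → i < m → P i = 0 := fun i h1 h2 => e4 (m - 1 - i) i (by omega) h1
  have e6 : ∀ i, 2 ≤ i → i < m → v i = 0 := by
    intro i h1 h2
    have a := e5 i (by omega) h2
    have b := e5 (i - 1) (by omega) (by omega)
    have hPi : P i = P (i - 1) + v i := by
      simp only [hP]
      rw [Finset.sum_range_succ, show i - 1 + 1 = i by omega]
    linarith
  have e7 : v 0 + v 1 = 0 := by
    have := e5 1 le_rfl (by omega)
    simpa [hP, Finset.sum_range_succ] using this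
  -- last row
  have e8 : v 0 + (1 - (m:ℝ)) * v 1 = 0 := by
    have hterm : ∀ k ∈ range m, mu m (Icc 2 m) k * v k =
        (m - 1) * ((if k = 0 then v 0 else 0) + (if k = 1 then (1 - (m:ℝ)) * v 1 else 0)) := by
      intro k hk
      rw [Finset.mem_range] at hk
      rw [mu_Icc_two hm hk.le, mul_assoc]
      congr 1
      rcases Nat.lt_or_ge k 2 with h | h
      · interval_cases k
        · simp
        · simp
      · rw [e6 k h hk, if_neg (by omega), if_neg (by omega), if_neg (by omega)]; ring
    rw [Finset.sum_congr rfl hterm, ← Finset.mul_sum, Finset.sum_add_distrib, Finset.sum_ite_eq',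
      Finset.sum_ite_eq', if_pos (Finset.mem_range.2 (by omega)), if_pos (Finset.mem_range.2 (by omega))] at h2
    rcases mul_eq_zero.1 h2 with h | h
    · exfalso
      have : (2:ℝ) ≤ m := by exact_mod_cast hm
      linarith
    · exact h
  have e9 : v 1 = 0 := by
    have : (m:ℝ) * v 1 = 0 := by linarith
    rcases mul_eq_zero.1 this with h | h
    · exfalso
      have : (2:ℝ) ≤ m := by exact_mod_cast hm
      linarith
    · exact h
  intro k hk
  rcases Nat.lt_or_ge k 2 with h | h
  · interval_cases k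
    · linarith
    · exact e9
  · exact e6 k h hk

theorem det_Minf_ne_zero {m : ℕ} (hm : 2 ≤ m) {ℓ ℓ' : ℝ} (hℓ : ℓ ≠ 0) (hℓ' : ℓ' ≠ 0) :
    (Minf m ℓ ℓ').det ≠ 0 := by
  intro hdet
  obtain ⟨w, hw0, hw⟩ := Matrix.exists_mulVec_eq_zero_iff.2 hdet
  apply hw0
  set v : ℕ → ℝ := fun k => if h : k < m then w ⟨k, h⟩ else 0 with hv
  have hrow : ∀ i : Fin m, ∑ k ∈ range m, mu m (Jset m i) k * v k = 0 := by
    intro i
    have h := congrFun hw i
    rw [Finset.sum_range]
    have h2 : (Minf m ℓ ℓ').mulVec w i = (if (i : ℕ) + 1 < m then ℓ else ℓ') *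
        ∑ k : Fin m, mu m (Jset m i) k * v k := by
      rw [Finset.mul_sum]
      unfold Matrix.mulVec dotProduct Minf
      apply Finset.sum_congr rfl
      intro k _
      simp only [Matrix.of_apply, hv, k.isLt, dif_pos]
      ring
    rw [h2] at h
    have h3 : (if (i : ℕ) + 1 < m then ℓ else ℓ') ≠ 0 := by split_ifs <;> assumption
    exact (mul_eq_zero.1 h).resolve_left h3
  have key := kernel_zero hm v
    (by
      intro i h1 h2
      have := hrow ⟨i - 1, by omega⟩
      simp only [Jset] at this
      rw [if_pos (by omega), show i - 1 + 1 = i by omega] at this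
      exact this)
    (by
      have := hrow ⟨m - 1, by omega⟩
      simp only [Jset] at this
      rw [if_neg (by omega)] at this
      exact this)
  funext k
  have := key k k.isLt
  simpa [hv] using this

end Pool.Agent.W367.KT
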