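import Pool.Agent.W367.KT.Sq
import Pool.Agent.W367.KT.LinAlg
set_option autoImplicit false

/-!
Assembly: `g + 1` independent classes on the curve `y + 1/y = ∏_{j=1}^{g+1} (1 - x/ε^{jN})`.
-/

namespace Pool.Agent.W367.KT

open Set MeasureTheory intervalIntegral Polynomial NumberField
open scoped TensorProduct WithZero Interval

theorem val_le_one_of_integral {F : Type*} [Field F] (v : Valuation F ℤᵐ⁰) {x : F} (hx : IsIntegral ℤ x) :
    v x ≤ 1 := by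
  have h1 : IsIntegral v.valuationSubring x := hx.tower_top
  exact (Valuation.valuationSubring.integers v).mem_of_integral h1

theorem val_eq_one_of_integral {F : Type*} [Field F] (v : Valuation F ℤᵐ⁰) {x : F} (hx : IsIntegral ℤ x)
    (hx' : IsIntegral ℤ x⁻¹) (h0 : x ≠ 0) : v x = 1 := by
  apply le_antisymm (val_le_one_of_integral v hx)
  have h := val_le_one_of_integral v hx'
  rw [map_inv₀] at h
  have hpos : 0 < v x := zero_lt_iff.2 ((Valuation.ne_zero_iff v).2 h0)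
  exact (inv_le_one₀ hpos).1 h

theorem val_map_eq_one {K F : Type*} [Field K] [Field F] (v : Valuation F ℤᵐ⁰) (φ : K →+* F) (x : Kˣ)
    (hx : IsIntegral ℤ (x : K)) (hx' : IsIntegral ℤ ((x⁻¹ : Kˣ) : K)) : v (φ x) = 1 := by
  apply val_eq_one_of_integral v (map_isIntegral_int φ hx)
  · rw [← map_inv₀, ← Units.val_inv_eq_inv_val]
    exact map_isIntegral_int φ hx'
  · rw [Ne, map_eq_zero]; exact x.ne_zero

section

variable {K : Type*} [Field K] (ε : Kˣ) (N m : ℕ)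

theorem prod_au_sq : (∏ j ∈ Finset.Icc 1 m, au ε N j) ^ 2 = ε ^ (N * (m * (m + 1))) := by
  unfold au
  rw [Finset.prod_pow_eq_pow_sum, ← pow_mul]
  congr 1
  have h : 2 * ∑ j ∈ Finset.Icc 1 m, j = m * (m + 1) := by
    induction m with
    | zero => simp
    | succ n ih => rw [Finset.sum_Icc_succ_top (by omega), mul_add, ih]; ring
  rw [← Finset.sum_mul, mul_comm _ 2, ← mul_assoc, h, mul_comm]

theorem rel_x : Ck ε N m 0 ^ m * (∏ j ∈ Finset.Icc 1 m, au ε N j) ^ 2 = 1 := by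
  rw [prod_au_sq]
  unfold Ck
  rw [← zpow_natCast, ← zpow_mul, ← zpow_natCast, ← zpow_add]
  have : ((N : ℤ) * (2 * ((0:ℕ):ℤ) - (m + 1))) * m + ((N * (m * (m + 1)) : ℕ) : ℤ) = 0 := by push_cast; ring
  rw [this, zpow_zero]

theorem rel_h (k : ℕ) : Ck ε N m k ^ m * ((au ε N k)⁻¹) ^ (2 * m) * (∏ j ∈ Finset.Icc 1 m, au ε N j) ^ 2 = 1 := by
  rw [prod_au_sq]
  unfold Ck au
  rw [← zpow_natCast, ← zpow_mul, ← zpow_natCast, ← zpow_natCast, ← zpow_natCast, ← zpow_neg, ← zpow_mul,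
    ← zpow_add, ← zpow_add]
  have : ((N : ℤ) * (2 * (k:ℤ) - (m + 1))) * m + -((k * N : ℕ) : ℤ) * ((2 * m : ℕ) : ℤ) +
      ((N * (m * (m + 1)) : ℕ) : ℤ) = 0 := by push_cast; ring
  rw [this, zpow_zero]

end

section

variable {K : Type*} [Field K] (m : ℕ) [hm : NeZero m] (ε : Kˣ) (N : ℕ)

/-- the classes -/
noncomputable def cls (k : ℕ) : ℚ ⊗[ℤ] K2 (FF (au ε N) m) :=
  (1 : ℚ) ⊗ₜ[ℤ] symb (cF (au ε N) m (Ck ε N m k) * HF (au ε N) m k ^ 2) (yF (au ε N) m)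

theorem cls_mem (hε : IsIntegral ℤ (ε : K)) (hε' : IsIntegral ℤ ((ε⁻¹ : Kˣ) : K)) (k : ℕ) (hk : k ≤ m) :
    cls m ε N k ∈ H2MZ (FF (au ε N) m) := by
  have hunit : ∀ (v : Valuation (FF (au ε N) m) ℤᵐ⁰), v (cF (au ε N) m ε : FF (au ε N) m) = 1 := by
    intro v
    exact val_map_eq_one v ((iota (au ε N) m).comp C) ε hε hε'
  have hunit' : ∀ (v : Valuation (FF (au ε N) m) ℤᵐ⁰) (n : ℤ), v (cF (au ε N) m (ε ^ n) : FF (au ε N) m) = 1 := by
    intro v n
    rw [map_zpow, Units.val_zpow_eq_zpow_val, map_zpow₀, hunit, one_zpow]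
  have ha : ∀ (v : Valuation (FF (au ε N) m) ℤᵐ⁰) (j : ℕ), v ((yData (au ε N) m).a j : FF (au ε N) m) = 1 := by
    intro v j
    show v (cF (au ε N) m (au ε N j) : FF (au ε N) m) = 1
    unfold au
    rw [← zpow_natCast]
    exact hunit' v _
  unfold cls
  apply tmul_symb_mem _ _ 12 (by norm_num)
  intro v
  rw [← mem_U1]
  by_cases h0 : k = 0
  · have hH : HF (au ε N) m k = xF (au ε N) m := if_pos h0
    rw [hH, h0]
    refine (yData (au ε N) m).tame_x (ha v) _ (hunit' v _) ?_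
    show (cF (au ε N) m (Ck ε N m 0)) ^ m * (∏ j ∈ Finset.Icc 1 m, cF (au ε N) m (au ε N j)) ^ 2 = 1
    rw [← map_prod, ← map_pow, ← map_pow, ← map_mul, rel_x, map_one]
  · have hH : HF (au ε N) m k = hF (au ε N) m k := if_neg h0
    rw [hH]
    refine (yData (au ε N) m).tame_h (ha v) k (Finset.mem_Icc.2 ⟨Nat.one_le_iff_ne_zero.2 h0, hk⟩) _ (hunit' v _) ?_
    show (cF (au ε N) m (Ck ε N m k)) ^ m * ((cF (au ε N) m (au ε N k))⁻¹) ^ (2 * m) *
      (∏ j ∈ Finset.Icc 1 m, cF (au ε N) m (au ε N j)) ^ 2 = 1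
    rw [← map_prod, ← map_inv, ← map_pow, ← map_pow, ← map_pow, ← map_mul, ← map_mul, rel_h, map_one]

theorem regQ_cls (γ : Loop (FF (au ε N) m)) (k : ℕ) : γ.regQ (cls m ε N k) =
    γ.pair (cF (au ε N) m (Ck ε N m k) * HF (au ε N) m k ^ 2) (yF (au ε N) m) := by
  unfold cls
  rw [Loop.regQ_tmul, one_smul]

end

section

variable {K : Type*} [Field K] [NumberField K] (σ : K →+* ℂ) (m : ℕ) [hm : NeZero m] (ε : Kˣ) (N : ℕ)

theorem norm_au (j : ℕ) : ‖σ (au ε N j : K)‖ = (‖σ (ε : K)‖ ^ N) ^ j := by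
  unfold au
  rw [Units.val_pow_eq_pow_val, map_pow, norm_pow, ← pow_mul, mul_comm]

theorem loop_one {ρ : ℝ} (hρ : 4 * Real.exp m ≤ ρ) (h : ρ ^ 2 < ‖σ (ε : K)‖ ^ N) (i : ℕ) (hi : 1 ≤ i) (him : i < m) :
    ∃ γ : Loop (FF (au ε N) m), ∀ k ≤ m, |γ.regQ (cls m ε N k) -
        2 * Real.pi * (N * Real.log ‖σ (ε : K)‖) * mu m (Finset.Icc 1 i) k| ≤ 12 * Real.pi * (m + 1) := by
  have hρ1 : 1 ≤ ρ := by
    have : 1 ≤ Real.exp m := Real.one_le_exp (by positivity)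
    linarith
  set T := ‖σ (ε : K)‖ ^ N with hT
  have hT1 : 1 < T := by nlinarith
  have hlt : ρ * T ^ i < T ^ (i + 1) / ρ := by
    rw [lt_div_iff₀ (by linarith), pow_succ]
    have : 0 < T ^ i := by positivity
    nlinarith
  obtain ⟨R, hR1, hR2, hRT⟩ := exists_transcendental_between hlt
  have hR : 0 < R := lt_trans (by positivity) hR1
  obtain ⟨γ, hγ⟩ := exists_loop_est σ ε N m hR hRT (Finset.Icc 1 i) ⟨1, Finset.mem_Icc.2 ⟨le_rfl, hi⟩⟩ hρ
    (by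
      intro j hj
      rw [Finset.mem_Icc] at hj
      rw [norm_au]
      have : T ^ j ≤ T ^ i := pow_le_pow_right₀ hT1.le hj.2
      nlinarith)
    (by
      intro j hj hj2
      rw [Finset.mem_Icc] at hj hj2
      rw [norm_au]
      have : T ^ (i + 1) ≤ T ^ j := pow_le_pow_right₀ hT1.le (by omega)
      rw [lt_div_iff₀ (by linarith)] at hR2
      nlinarith)
    (Finset.Icc_subset_Icc le_rfl him.le)
  refine ⟨γ, fun k hk => ?_⟩
  rw [regQ_cls]
  exact hγ k hk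

theorem loop_two {ρ : ℝ} (hρ : 4 * Real.exp m ≤ ρ) (h : ρ ^ 2 * ‖σ (ε : K)‖ ^ N < 1) (hm2 : 2 ≤ m) :
    ∃ γ : Loop (FF (au ε N) m), ∀ k ≤ m, |γ.regQ (cls m ε N k) -
        2 * Real.pi * (N * Real.log ‖σ (ε : K)‖) * mu m (Finset.Icc 2 m) k| ≤ 12 * Real.pi * (m + 1) := by
  have hρ1 : 1 ≤ ρ := by
    have : 1 ≤ Real.exp m := Real.one_le_exp (by positivity)
    linarith
  set T := ‖σ (ε : K)‖ ^ N with hT
  have hT0 : 0 < T := by
    rw [hT]
    exact pow_pos (norm_pos_iff.2 (sigma_ne σ ε)) N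
  have hT1 : T < 1 := by nlinarith
  have hlt : ρ * T ^ 2 < T / ρ := by
    rw [lt_div_iff₀ (by linarith)]
    nlinarith
  obtain ⟨R, hR1, hR2, hRT⟩ := exists_transcendental_between hlt
  have hR : 0 < R := lt_trans (by positivity) hR1
  obtain ⟨γ, hγ⟩ := exists_loop_est σ ε N m hR hRT (Finset.Icc 2 m) ⟨2, Finset.mem_Icc.2 ⟨le_rfl, hm2⟩⟩ hρ
    (by
      intro j hj
      rw [Finset.mem_Icc] at hj
      rw [norm_au]
      have : T ^ j ≤ T ^ 2 := pow_le_pow_of_le_one hT0.le hT1.le hj.1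
      nlinarith)
    (by
      intro j hj hj2
      rw [Finset.mem_Icc] at hj hj2
      have hj1 : j = 1 := by omega
      rw [norm_au, hj1, pow_one]
      rw [lt_div_iff₀ (by linarith)] at hR2
      linarith)
    (Finset.Icc_subset_Icc (by norm_num) le_rfl)
  refine ⟨γ, fun k hk => ?_⟩
  rw [regQ_cls]
  exact hγ k hk

end

theorem det_near {m : ℕ} (D : Matrix (Fin m) (Fin m) ℝ) (hD : D.det ≠ 0) :
    ∃ δ > 0, ∀ A : Matrix (Fin m) (Fin m) ℝ, (∀ i k, |A i k - D i k| < δ) → A.det ≠ 0 := by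
  have hcont : Continuous fun A : Fin m → Fin m → ℝ => (Matrix.of A).det := by
    apply Continuous.matrix_det
    exact continuous_id
  have hopen : IsOpen {A : Fin m → Fin m → ℝ | (Matrix.of A).det ≠ 0} := isOpen_ne.preimage hcont
  obtain ⟨δ, hδ, hball⟩ := Metric.isOpen_iff.1 hopen (fun i k => D i k) hD
  refine ⟨δ, hδ, fun A hA => ?_⟩
  have : (fun i k => A i k) ∈ Metric.ball (fun i k => D i k) δ := by
    rw [Metric.mem_ball, dist_pi_lt_iff hδ]
    intro i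
    rw [dist_pi_lt_iff hδ]
    intro k
    rw [Real.dist_eq]
    exact hA i k
  exact hball this

/-- the unit `ε` in `K` -/
noncomputable def toK {K : Type*} [Field K] [NumberField K] (ε : (𝓞 K)ˣ) : Kˣ :=
  Units.map (algebraMap (𝓞 K) K).toMonoidHom ε

theorem exists_embeddings {K : Type*} [Field K] [NumberField K] (ε : (𝓞 K)ˣ) (hε : ¬ IsOfFinOrder ε) :
    (∃ σ : K →+* ℂ, 1 < ‖σ (toK ε : K)‖) := by
  by_contra hcon
  push Not at hcon
  apply hε
  have hint : IsIntegral ℤ (toK ε : K) := (ε : 𝓞 K).isIntegral_coe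
  obtain ⟨n, hn, hn2⟩ := NumberField.Embeddings.pow_eq_one_of_norm_le_one K ℂ (toK ε).ne_zero hint hcon
  rw [isOfFinOrder_iff_pow_eq_one]
  refine ⟨n, hn, ?_⟩
  apply Units.ext
  apply FaithfulSMul.algebraMap_injective (𝓞 K) K
  rw [Units.val_pow_eq_pow_val, map_pow, Units.val_one, map_one]
  exact hn2

theorem exists_embeddings' {K : Type*} [Field K] [NumberField K] (ε : (𝓞 K)ˣ) (hε : ¬ IsOfFinOrder ε) :
    (∃ σ : K →+* ℂ, ‖σ (toK ε : K)‖ < 1) := by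
  obtain ⟨σ, hσ⟩ := exists_embeddings ε⁻¹ (by rwa [isOfFinOrder_inv_iff])
  refine ⟨σ, ?_⟩
  have e : (toK ε⁻¹ : K) = (toK ε : K)⁻¹ := by
    unfold toK
    rw [map_inv, Units.val_inv_eq_inv_val]
  rw [e, map_inv₀, norm_inv] at hσ
  by_contra hcon
  push Not at hcon
  exact absurd hσ (not_lt.2 (inv_le_one_of_one_le₀ hcon))

theorem main {K : Type*} [Field K] [NumberField K] (ε : (𝓞 K)ˣ) (hε : ¬ IsOfFinOrder ε) (m : ℕ) (hm2 : 2 ≤ m)
    [NeZero m] :
    ∀ᶠ N : ℕ in Filter.atTop, Squarefree (fpoly (au (toK ε) N) m ^ 2 - 4) ∧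
      (∀ k ≤ m, cls m (toK ε) N k ∈ H2MZ (FF (au (toK ε) N) m)) ∧
      ∃ γ : Fin m → Loop (FF (au (toK ε) N) m),
        (Matrix.of fun i k : Fin m => (γ i).regQ (cls m (toK ε) N k)).det ≠ 0 := by
  obtain ⟨σ, hσ⟩ := exists_embeddings ε hε
  obtain ⟨σ', hσ'⟩ := exists_embeddings' ε hε
  set e : Kˣ := toK ε with he
  have hpos' : 0 < ‖σ' (e : K)‖ := norm_pos_iff.2 (sigma_ne σ' e)
  set ℓ := Real.log ‖σ (e : K)‖ with hℓ
  set ℓ' := Real.log ‖σ' (e : K)‖ with hℓ'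
  have hℓ0 : ℓ ≠ 0 := (Real.log_pos hσ).ne'
  have hℓ'0 : ℓ' ≠ 0 := (Real.log_neg hpos' hσ').ne
  obtain ⟨δ, hδ, hdet⟩ := det_near _ (det_Minf_ne_zero hm2 hℓ0 hℓ'0)
  have t1 := tendsto_pow_atTop_atTop_of_one_lt hσ
  have t2 := tendsto_pow_atTop_nhds_zero_of_lt_one hpos'.le hσ'
  set ρ := 4 * Real.exp m with hρ
  have hρpos : 0 < ρ := by positivity
  have c1 : ∀ᶠ N : ℕ in Filter.atTop, ρ ^ 2 < ‖σ (e : K)‖ ^ N := t1.eventually_gt_atTop _
  have c2 : ∀ᶠ N : ℕ in Filter.atTop, ρ ^ 2 * ‖σ' (e : K)‖ ^ N < 1 := by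
    have : Filter.Tendsto (fun N : ℕ => ρ ^ 2 * ‖σ' (e : K)‖ ^ N) Filter.atTop (nhds (ρ ^ 2 * 0)) := t2.const_mul _
    rw [mul_zero] at this
    exact this.eventually_lt_const zero_lt_one
  have c3 : ∀ᶠ N : ℕ in Filter.atTop, (16 * ((m : ℝ) + 2)) ^ 2 ≤ ‖σ (e : K)‖ ^ N := t1.eventually_ge_atTop _
  have c4 : ∀ᶠ N : ℕ in Filter.atTop, 6 * ((m : ℝ) + 1) / δ < N :=
    tendsto_natCast_atTop_atTop.eventually_gt_atTop _
  filter_upwards [c1, c2, c3, c4] with N h1 h2 h3 h4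
  have hN : (0:ℝ) < N := lt_trans (by positivity) h4
  refine ⟨?_, ?_, ?_⟩
  · apply squarefree_of_sep σ (au e N) m (lam := 16 * ((m : ℝ) + 2)) le_rfl
    intro i _ j _ hij
    have hT1 : 1 ≤ ‖σ (e : K)‖ ^ N := one_le_pow₀ hσ.le
    rw [norm_au, norm_au]
    rcases Nat.lt_or_gt_of_ne hij with h | h
    · left
      calc (16 * ((m : ℝ) + 2)) ^ 2 * (‖σ (e : K)‖ ^ N) ^ i ≤ ‖σ (e : K)‖ ^ N * (‖σ (e : K)‖ ^ N) ^ i := by gcongr
        _ = (‖σ (e : K)‖ ^ N) ^ (i + 1) := by rw [pow_succ]; ring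
        _ ≤ (‖σ (e : K)‖ ^ N) ^ j := pow_le_pow_right₀ hT1 h
    · right
      calc (16 * ((m : ℝ) + 2)) ^ 2 * (‖σ (e : K)‖ ^ N) ^ j ≤ ‖σ (e : K)‖ ^ N * (‖σ (e : K)‖ ^ N) ^ j := by gcongr
        _ = (‖σ (e : K)‖ ^ N) ^ (j + 1) := by rw [pow_succ]; ring
        _ ≤ (‖σ (e : K)‖ ^ N) ^ i := pow_le_pow_right₀ hT1 h
  · intro k hk
    apply cls_mem m e N _ _ k hk
    · exact (ε : 𝓞 K).isIntegral_coe
    · have : ((e⁻¹ : Kˣ) : K) = ((ε⁻¹ : (𝓞 K)ˣ) : 𝓞 K) := by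
        rw [he]
        unfold toK
        rw [← map_inv]
        rfl
      rw [this]
      exact RingOfIntegers.isIntegral_coe _
  · have hex : ∀ i : Fin m, ∃ γ : Loop (FF (au e N) m), ∀ k : Fin m,
        |γ.regQ (cls m e N k) - 2 * Real.pi * N * Minf m ℓ ℓ' i k| ≤ 12 * Real.pi * (m + 1) := by
      intro i
      by_cases hi : (i : ℕ) + 1 < m
      · obtain ⟨γ, hγ⟩ := loop_one σ m e N (ρ := ρ) le_rfl h1 (i + 1) (by omega) hi
        refine ⟨γ, fun k => ?_⟩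
        have := hγ k k.isLt.le
        have e1 : Minf m ℓ ℓ' i k = ℓ * mu m (Finset.Icc 1 (i + 1)) k := by
          unfold Minf Jset
          simp only [Matrix.of_apply]
          rw [if_pos hi, if_pos hi]
        rw [e1]
        convert this using 3
        ring
      · obtain ⟨γ, hγ⟩ := loop_two σ' m e N (ρ := ρ) le_rfl h2 hm2
        refine ⟨γ, fun k => ?_⟩
        have := hγ k k.isLt.le
        have e1 : Minf m ℓ ℓ' i k = ℓ' * mu m (Finset.Icc 2 m) k := by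
          unfold Minf Jset
          simp only [Matrix.of_apply]
          rw [if_neg hi, if_neg hi]
        rw [e1]
        convert this using 3
        ring
    choose γ hγ using hex
    refine ⟨γ, ?_⟩
    set c : ℝ := (2 * Real.pi * N)⁻¹ with hc
    have hpi := Real.pi_pos
    have hcpos : 0 < c := by positivity
    have hA : (c • (Matrix.of fun i k : Fin m => (γ i).regQ (cls m e N k))).det ≠ 0 := by
      apply hdet
      intro i k
      have h5 := hγ i k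
      have e1 : (c • (Matrix.of fun i k : Fin m => (γ i).regQ (cls m e N k))) i k - Minf m ℓ ℓ' i k =
          c * ((γ i).regQ (cls m e N k) - 2 * Real.pi * N * Minf m ℓ ℓ' i k) := by
        simp only [Matrix.smul_apply, Matrix.of_apply, smul_eq_mul]
        rw [mul_sub, hc]
        field_simp
      rw [e1, abs_mul, abs_of_pos hcpos]
      calc c * |(γ i).regQ (cls m e N k) - 2 * Real.pi * N * Minf m ℓ ℓ' i k| ≤ c * (12 * Real.pi * (m + 1)) := by
            gcongr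
        _ = 6 * (m + 1) / N := by
            rw [hc]; field_simp; ring
        _ < δ := by
            rw [div_lt_iff₀ hδ] at h4
            rw [div_lt_iff₀ hN]
            linarith
    intro h0
    apply hA
    rw [Matrix.det_smul, h0, mul_zero]

end Pool.Agent.W367.KT
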