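import Mathlib
set_option autoImplicit false

/-!
`K_2` of a field (Matsumoto's presentation), tame symbols of discrete valuations and the
unramified part `H2MZ` of `K_2 ⊗ ℚ`.
-/

namespace Pool.Agent.W367.KT

open scoped TensorProduct WithZero

section K2

variable (F : Type*) [Field F]

/-- The subgroup of `Fˣ ⊗ Fˣ` generated by the Steinberg elements `a ⊗ b` with `a + b = 1`. -/
def steinberg : AddSubgroup (Additive Fˣ ⊗[ℤ] Additive Fˣ) :=
  AddSubgroup.closure {z | ∃ a b : Fˣ, (a : F) + (b : F) = 1 ∧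
    z = Additive.ofMul a ⊗ₜ[ℤ] Additive.ofMul b}

/-- `K_2` of the field `F`: `Fˣ ⊗ Fˣ` modulo the Steinberg relations. -/
def K2 : Type _ := (Additive Fˣ ⊗[ℤ] Additive Fˣ) ⧸ steinberg F

noncomputable instance : AddCommGroup (K2 F) :=
  QuotientAddGroup.Quotient.addCommGroup (steinberg F)

variable {F}

/-- the symbol `{a, b}` in `K_2 (F)` -/
noncomputable def symb (a b : Fˣ) : K2 F :=
  QuotientAddGroup.mk' (steinberg F) (Additive.ofMul a ⊗ₜ[ℤ] Additive.ofMul b)

/-- A bimultiplicative map as a homomorphism on the tensor product. -/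
noncomputable def biHom {A : Type*} [AddCommGroup A] (φ : Fˣ → Fˣ → A)
    (h1 : ∀ a b c, φ (a * b) c = φ a c + φ b c) (h2 : ∀ a b c, φ a (b * c) = φ a b + φ a c) :
    (Additive Fˣ ⊗[ℤ] Additive Fˣ) →+ A :=
  TensorProduct.liftAddHom
    (AddMonoidHom.mk' (fun a : Additive Fˣ => AddMonoidHom.mk' (fun b : Additive Fˣ =>
        φ a.toMul b.toMul) (fun b c => h2 a.toMul b.toMul c.toMul))
      (fun a b => by ext c; exact h1 a.toMul b.toMul c))
    (fun r m n => by rw [map_zsmul, AddMonoidHom.coe_smul, Pi.smul_apply, map_zsmul])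

theorem biHom_tmul {A : Type*} [AddCommGroup A] (φ : Fˣ → Fˣ → A)
    (h1 : ∀ a b c, φ (a * b) c = φ a c + φ b c) (h2 : ∀ a b c, φ a (b * c) = φ a b + φ a c)
    (a b : Fˣ) : biHom φ h1 h2 (Additive.ofMul a ⊗ₜ[ℤ] Additive.ofMul b) = φ a b := rfl

/-- The universal property of `K_2`. -/
noncomputable def K2lift {A : Type*} [AddCommGroup A] (φ : Fˣ → Fˣ → A)
    (h1 : ∀ a b c, φ (a * b) c = φ a c + φ b c) (h2 : ∀ a b c, φ a (b * c) = φ a b + φ a c)
    (h3 : ∀ a b : Fˣ, (a : F) + (b : F) = 1 → φ a b = 0) : K2 F →+ A :=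
  QuotientAddGroup.lift (steinberg F) (biHom φ h1 h2) (by
    unfold steinberg
    rw [AddSubgroup.closure_le]
    rintro z ⟨a, b, hab, rfl⟩
    exact h3 a b hab)

@[simp] theorem K2lift_symb {A : Type*} [AddCommGroup A] (φ : Fˣ → Fˣ → A)
    (h1 : ∀ a b c, φ (a * b) c = φ a c + φ b c) (h2 : ∀ a b c, φ a (b * c) = φ a b + φ a c)
    (h3 : ∀ a b : Fˣ, (a : F) + (b : F) = 1 → φ a b = 0) (a b : Fˣ) :
    K2lift φ h1 h2 h3 (symb a b) = φ a b := rfl

end K2

section Tame

variable {F : Type*} [Field F] (v : Valuation F ℤᵐ⁰)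

/-- The (additive) order of a unit at `v`. -/
noncomputable def ord (a : Fˣ) : ℤ :=
  -(WithZero.unitsWithZeroEquiv (Units.map (v : F →* ℤᵐ⁰) a)).toAdd

theorem ord_mul (a b : Fˣ) : ord v (a * b) = ord v a + ord v b := by
  unfold ord
  rw [map_mul, map_mul, toAdd_mul, neg_add]

theorem ord_one : ord v 1 = 0 := by
  have := ord_mul v 1 1
  rw [one_mul] at this
  omega

theorem ord_inv (a : Fˣ) : ord v a⁻¹ = - ord v a := by
  have := ord_mul v a a⁻¹
  rw [mul_inv_cancel, ord_one] at this
  omega

theorem val_eq (a : Fˣ) : v (a : F) = WithZero.exp (-(ord v a)) := by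
  unfold ord
  rw [neg_neg]
  set u := Units.map (v : F →* ℤᵐ⁰) a with hu
  have h1 : v (a : F) = (u : ℤᵐ⁰) := rfl
  rw [h1]
  have h2 := WithZero.unitsWithZeroEquiv.symm_apply_apply u
  conv_lhs => rw [← h2]
  rfl

theorem ord_eq_iff (a : Fˣ) (n : ℤ) : ord v a = n ↔ v (a : F) = WithZero.exp (-n) := by
  rw [val_eq, WithZero.exp_inj, neg_inj]

theorem ord_neg (a : Fˣ) : ord v (-a) = ord v a := by
  rw [ord_eq_iff, Units.val_neg, Valuation.map_neg, val_eq]

theorem ord_pow (a : Fˣ) (n : ℕ) : ord v (a ^ n) = n * ord v a := by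
  induction n with
  | zero => simp [ord_one]
  | succ n ih => rw [pow_succ, ord_mul, ih]; push_cast; ring

theorem ord_zpow (a : Fˣ) (n : ℤ) : ord v (a ^ n) = n * ord v a := by
  cases n with
  | ofNat n => simpa using ord_pow v a n
  | negSucc n => rw [zpow_negSucc, ord_inv, ord_pow, Int.negSucc_eq]; push_cast; ring

/-- The element `(-1)^{ord a ord b} a^{ord b} / b^{ord a}` of `Fˣ`. -/
noncomputable def tameElt (a b : Fˣ) : Fˣ :=
  (-1) ^ (ord v a * ord v b) * a ^ (ord v b) * b ^ (-(ord v a))

theorem ord_tameElt (a b : Fˣ) : ord v (tameElt v a b) = 0 := by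
  unfold tameElt
  rw [ord_mul, ord_mul, ord_zpow, ord_zpow, ord_zpow, ord_neg, ord_one]
  ring

theorem tameElt_mul_left (a b c : Fˣ) :
    tameElt v (a * b) c = tameElt v a c * tameElt v b c := by
  unfold tameElt
  rw [ord_mul, add_mul, zpow_add, mul_zpow, neg_add, zpow_add]
  simp only [mul_assoc, mul_left_comm, mul_comm]

theorem tameElt_mul_right (a b c : Fˣ) :
    tameElt v a (b * c) = tameElt v a b * tameElt v a c := by
  unfold tameElt
  rw [ord_mul, mul_add, zpow_add, mul_zpow, zpow_add]
  simp only [mul_assoc, mul_left_comm, mul_comm]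

theorem mem_unitGroup (a : Fˣ) (h : ord v a = 0) : a ∈ v.valuationSubring.unitGroup := by
  rw [Valuation.mem_unitGroup_iff, val_eq, h]
  simp

/-- The residue field of a valuation. -/
abbrev Res : Type _ := IsLocalRing.ResidueField v.valuationSubring

/-- the tame symbol of `a` and `b` in the units of the residue field -/
noncomputable def tameRes (a b : Fˣ) : (Res v)ˣ :=
  v.valuationSubring.unitGroupToResidueFieldUnits
    ⟨tameElt v a b, mem_unitGroup v _ (ord_tameElt v a b)⟩

theorem resUnits_eq_one_iff (u : Fˣ) (hu : u ∈ v.valuationSubring.unitGroup) :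
    v.valuationSubring.unitGroupToResidueFieldUnits ⟨u, hu⟩ = 1 ↔ v ((u : F) - 1) < 1 := by
  rw [← MonoidHom.mem_ker, ValuationSubring.ker_unitGroupToResidueFieldUnits]
  show u ∈ v.valuationSubring.principalUnitGroup ↔ _
  rw [ValuationSubring.mem_principalUnitGroup_iff]
  exact ((Valuation.isEquiv_valuation_valuationSubring v).lt_one_iff_lt_one).symm

theorem tameRes_pow_eq_one_iff (a b : Fˣ) (k : ℕ) :
    tameRes v a b ^ k = 1 ↔ v (((tameElt v a b ^ k : Fˣ) : F) - 1) < 1 := by
  have h : tameElt v a b ^ k ∈ v.valuationSubring.unitGroup :=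
    Subgroup.pow_mem _ (mem_unitGroup v _ (ord_tameElt v a b)) _
  rw [← resUnits_eq_one_iff v _ h]
  unfold tameRes
  rw [← map_pow]
  rfl

theorem tameRes_steinberg (a b : Fˣ) (hab : (a : F) + (b : F) = 1) : tameRes v a b = 1 := by
  have key : v (((tameElt v a b : Fˣ) : F) - 1) < 1 := by
    -- valuations of a and b
    have hb : (b : F) = 1 - a := by rw [← hab]; ring
    have ha : (a : F) = 1 - b := by rw [← hab]; ring
    rcases lt_trichotomy (ord v a) 0 with h | h | h
    · -- pole
      have hva : 1 < v (a : F) := by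
        rw [val_eq, ← WithZero.exp_zero, WithZero.exp_lt_exp]; omega
      have hvb : v (b : F) = v (a : F) := by
        rw [hb, Valuation.map_sub_eq_of_lt_right]
        simpa using hva
      have hord : ord v b = ord v a := by
        rw [ord_eq_iff, hvb, val_eq]
      obtain ⟨n, hn⟩ : ∃ n : ℕ, ord v a = -(n : ℤ) := ⟨(ord v a).natAbs, by omega⟩
      have hT : tameElt v a b = (-(b / a)) ^ n := by
        unfold tameElt
        rw [hord, hn, neg_neg]
        have h1 : ((-1 : Fˣ)) ^ (-(n : ℤ) * -(n : ℤ)) = (-1) ^ n := by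
          have : (-(n : ℤ) * -(n : ℤ)) = ((n * n : ℕ) : ℤ) := by push_cast; ring
          rw [this, zpow_natCast]
          rcases Nat.even_or_odd n with he | ho
          · rw [he.neg_one_pow, (he.mul_right n).neg_one_pow]
          · rw [ho.neg_one_pow, (ho.mul ho).neg_one_pow]
        rw [h1, zpow_neg, zpow_natCast, zpow_natCast, neg_eq_neg_one_mul (b / a), mul_pow, div_pow,
          div_eq_mul_inv, mul_assoc, mul_comm (a ^ n)⁻¹]
      have hc : v ((((-(b / a)) : Fˣ) : F) - 1) < 1 := by
        have : (((-(b / a)) : Fˣ) : F) - 1 = -((a : F))⁻¹ := by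
          have ha0 : (a : F) ≠ 0 := a.ne_zero
          push_cast
          rw [hb]
          field_simp
          ring
        rw [this, Valuation.map_neg, map_inv₀]
        exact inv_lt_one_of_one_lt₀ hva
      have hmem : (-(b / a)) ∈ v.valuationSubring.unitGroup := by
        rw [Valuation.mem_unitGroup_iff]
        push_cast
        rw [Valuation.map_neg, map_div₀, hvb, div_self]
        exact (Valuation.ne_zero_iff v).2 a.ne_zero
      have h2 := (resUnits_eq_one_iff v _ hmem).2 hc
      have hmem' : (-(b / a)) ^ n ∈ v.valuationSubring.unitGroup := Subgroup.pow_mem _ hmem _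
      rw [hT, ← resUnits_eq_one_iff v _ hmem']
      have : (⟨(-(b / a)) ^ n, hmem'⟩ : v.valuationSubring.unitGroup) = ⟨-(b / a), hmem⟩ ^ n := rfl
      rw [this, map_pow, h2, one_pow]
    · -- ord a = 0
      rcases lt_trichotomy (ord v b) 0 with h' | h' | h'
      · exfalso
        have hva : v (a : F) = 1 := by rw [val_eq, h]; simp
        have hvb : 1 < v (b : F) := by
          rw [val_eq, ← WithZero.exp_zero, WithZero.exp_lt_exp]; omega
        rw [hb] at hvb
        have := v.map_sub_le (x := 1) (y := (a : F)) (g := 1) (by simp) hva.le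
        exact absurd hvb (not_lt.2 this)
      · unfold tameElt
        rw [h, h']
        simp
      · have hvb : v (b : F) < 1 := by
          rw [val_eq, ← WithZero.exp_zero, WithZero.exp_lt_exp]; omega
        have hc : v ((a : F) - 1) < 1 := by
          rw [ha, show (1 - (b : F) - 1) = - b by ring, Valuation.map_neg]; exact hvb
        have hmem : a ∈ v.valuationSubring.unitGroup := mem_unitGroup v _ h
        have h2 := (resUnits_eq_one_iff v _ hmem).2 hc
        have hT : tameElt v a b = a ^ (ord v b) := by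
          unfold tameElt
          rw [h]; simp
        have hmem' : a ^ (ord v b) ∈ v.valuationSubring.unitGroup := Subgroup.zpow_mem _ hmem _
        rw [hT, ← resUnits_eq_one_iff v _ hmem']
        have : (⟨a ^ (ord v b), hmem'⟩ : v.valuationSubring.unitGroup) = ⟨a, hmem⟩ ^ (ord v b) := rfl
        rw [this, map_zpow, h2, one_zpow]
    · -- ord a > 0
      have hva : v (a : F) < 1 := by
        rw [val_eq, ← WithZero.exp_zero, WithZero.exp_lt_exp]; omega
      have hvb : v (b : F) = 1 := by
        rw [hb]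
        rw [Valuation.map_sub_eq_of_lt_left]
        · simp
        · simpa using hva
      have hord : ord v b = 0 := by rw [ord_eq_iff, hvb]; simp
      have hc : v ((b : F) - 1) < 1 := by
        rw [hb, show (1 - (a : F) - 1) = - a by ring, Valuation.map_neg]; exact hva
      have hmem : b ∈ v.valuationSubring.unitGroup := mem_unitGroup v _ hord
      have h2 := (resUnits_eq_one_iff v _ hmem).2 hc
      have hT : tameElt v a b = b ^ (-(ord v a)) := by
        unfold tameElt
        rw [hord]; simp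
      have hmem' : b ^ (-(ord v a)) ∈ v.valuationSubring.unitGroup := Subgroup.zpow_mem _ hmem _
      rw [hT, ← resUnits_eq_one_iff v _ hmem']
      have : (⟨b ^ (-(ord v a)), hmem'⟩ : v.valuationSubring.unitGroup) = ⟨b, hmem⟩ ^ (-(ord v a)) := rfl
      rw [this, map_zpow, h2, one_zpow]
  exact (resUnits_eq_one_iff v _ _).2 key

/-- The tame symbol `K_2 (F) → κ(v)ˣ` of a discrete valuation. -/
noncomputable def tame : K2 F →+ Additive (Res v)ˣ :=
  K2lift (fun a b => Additive.ofMul (tameRes v a b))
    (fun a b c => by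
      rw [← ofMul_mul]
      congr 1
      unfold tameRes
      rw [← map_mul]
      congr 1
      exact Subtype.ext (tameElt_mul_left v a b c))
    (fun a b c => by
      rw [← ofMul_mul]
      congr 1
      unfold tameRes
      rw [← map_mul]
      congr 1
      exact Subtype.ext (tameElt_mul_right v a b c))
    (fun a b hab => by rw [tameRes_steinberg v a b hab]; rfl)

end Tame

section HM

variable (F : Type*) [Field F]

/-- The elements of `K_2 (F) ⊗ ℚ` whose tame symbols at all discrete valuations of `F` vanish. -/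
noncomputable def H2MZ : Submodule ℚ (ℚ ⊗[ℤ] K2 F) :=
  ⨅ (v : Valuation F ℤᵐ⁰) (_ : Function.Surjective v),
    LinearMap.ker (LinearMap.baseChange ℚ (tame v).toIntLinearMap)

variable {F}

theorem tmul_symb_mem (a b : Fˣ) (k : ℕ) (hk : k ≠ 0)
    (h : ∀ v : Valuation F ℤᵐ⁰, v (((tameElt v a b ^ k : Fˣ) : F) - 1) < 1) (q : ℚ) :
    q ⊗ₜ[ℤ] symb a b ∈ H2MZ F := by
  unfold H2MZ
  simp only [Submodule.mem_iInf, LinearMap.mem_ker]
  intro v _
  rw [LinearMap.baseChange_tmul]
  have h1 : (tame v).toIntLinearMap (symb a b) = Additive.ofMul (tameRes v a b) := rfl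
  have h2 : k • Additive.ofMul (tameRes v a b) = 0 := by
    rw [← ofMul_pow, (tameRes_pow_eq_one_iff v a b k).2 (h v)]
    rfl
  rw [h1]
  have h3 : q = (k : ℤ) • (q / k) := by
    have : (k : ℚ) ≠ 0 := by exact_mod_cast hk
    rw [zsmul_eq_mul]
    push_cast
    field_simp
  rw [h3, TensorProduct.smul_tmul, natCast_zsmul, h2, TensorProduct.tmul_zero]

end HM

end Pool.Agent.W367.KT
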