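import Pool.Agent.W367.KT.Curve
set_option autoImplicit false

/-!
Closed paths on the curves `y + 1/y = ∏ (1 - x/a_j)`.
-/

namespace Pool.Agent.W367.KT

open Set MeasureTheory intervalIntegral Polynomial
open scoped TensorProduct WithZero Interval

theorem Rep'.congr {R : ℝ} {A B : ℝ → ℂ} {c d : ℂ} {m n : ℤ} {A0 B0 : ℝ} (h : Rep' R A c m A0)
    (hAB : ∀ t, A t = B t) (hcd : c = d) (hmn : m = n) (h0 : A0 ≤ B0) : Rep' R B d n B0 := by
  obtain ⟨α, h1, h2, h3, h4⟩ := h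
  subst hcd hmn
  exact ⟨α, h1, h2, fun t => (hAB t).symm.trans (h3 t), fun t => (h4 t).trans h0⟩

theorem Rep.congr {R : ℝ} {A B : ℝ → ℂ} {c d : ℂ} {m n : ℤ} {A0 B0 A1 B1 : ℝ} (h : Rep R A c m A0 A1)
    (hAB : ∀ t, A t = B t) (hcd : c = d) (hmn : m = n) (h0 : A0 ≤ B0) (h1 : A1 ≤ B1) : Rep R B d n B0 B1 := by
  obtain ⟨α, k1, k2, k3, k4, k5⟩ := h
  subst hcd hmn
  exact ⟨α, k1, k2, fun t => (hAB t).symm.trans (k3 t), fun t => (k4 t).trans h0, fun t => (k5 t).trans h1⟩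

section

variable {R : ℝ} (hR : 0 < R) {b : ℂ} (hb : b ≠ 0)
include hR hb

theorem rep_factor_in (h : 2 * ‖b‖ ≤ R) :
    Rep R (fun t => 1 - b⁻¹ * circ R t) (-b⁻¹) 1 1 (2 * Real.pi) := by
  have h1 := ((Rep.const R (-b⁻¹)).mul hR (Rep.x R)).mul hR
    (Rep.one_sub hR b (-1) (by norm_num) (fun t => by
      rw [norm_mul, norm_zpow, norm_circ hR, zpow_neg_one, ← div_eq_mul_inv, div_le_iff₀ hR]
      linarith))
  refine h1.congr (fun t => ?_) (by ring) (by norm_num) (by norm_num) (by norm_num)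
  have := circ_ne_zero hR t
  rw [zpow_neg_one]
  field_simp
  ring

theorem rep_factor_out (h : 2 * R ≤ ‖b‖) :
    Rep R (fun t => 1 - b⁻¹ * circ R t) 1 0 1 (2 * Real.pi) := by
  have h1 := Rep.one_sub hR b⁻¹ 1 (by norm_num) (fun t => by
      rw [norm_mul, norm_inv, zpow_one, norm_circ hR, inv_mul_le_iff₀ (norm_pos_iff.2 hb)]
      linarith)
  refine h1.congr (fun t => ?_) rfl rfl le_rfl le_rfl
  rw [zpow_one]

end

variable {K : Type*} [Field K] [NumberField K] (σ : K →+* ℂ) (a : ℕ → Kˣ) (m : ℕ) [hm : NeZero m]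

/-- the leading coefficient of `f` on the circle -/
noncomputable def cJ (J : Finset ℕ) : ℂ := ∏ j ∈ Finset.Icc 1 m, if j ∈ J then -(σ (a j))⁻¹ else 1

theorem sigma_ne (u : Kˣ) : σ (u : K) ≠ 0 := by
  rw [Ne, map_eq_zero]; exact u.ne_zero

theorem eval_factor (j : ℕ) (z : ℂ) : (1 - C (((a j)⁻¹ : Kˣ) : K) * X : K[X]).eval₂ σ z = 1 - (σ (a j))⁻¹ * z := by
  simp

theorem eval_fpoly (z : ℂ) : (fpoly a m).eval₂ σ z = ∏ j ∈ Finset.Icc 1 m, (1 - (σ (a j))⁻¹ * z) := by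
  unfold fpoly
  rw [← coe_eval₂RingHom, map_prod]
  apply Finset.prod_congr rfl
  intro j _
  rw [coe_eval₂RingHom, eval_factor]

theorem rep_f {R : ℝ} (hR : 0 < R) (J : Finset ℕ) (h1 : ∀ j ∈ J, 2 * ‖σ (a j)‖ ≤ R)
    (h2 : ∀ j ∈ Finset.Icc 1 m, j ∉ J → 2 * R ≤ ‖σ (a j)‖) (hJ : J ⊆ Finset.Icc 1 m) :
    Rep R (fun t => (fpoly a m).eval₂ σ (circ R t)) (cJ σ a m J) J.card m (m * (2 * Real.pi)) := by
  have h := Rep.prod hR (Finset.Icc 1 m) (fun j t => 1 - (σ (a j))⁻¹ * circ R t)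
    (fun j => if j ∈ J then -(σ (a j))⁻¹ else 1) (fun j => if j ∈ J then 1 else 0) (fun _ => 1)
    (fun _ => 2 * Real.pi) (fun j hj => by
      by_cases hjJ : j ∈ J
      · simp only [if_pos hjJ]
        exact rep_factor_in hR (sigma_ne σ _) (h1 j hjJ)
      · simp only [if_neg hjJ]
        exact rep_factor_out hR (sigma_ne σ _) (h2 j hj hjJ))
  refine h.congr (fun t => (eval_fpoly σ a m _).symm) rfl ?_ (by simp) (by simp)
  rw [Finset.sum_ite_mem, Finset.inter_eq_right.2 hJ]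
  simp

theorem norm_cJ (J : Finset ℕ) (hJ : J ⊆ Finset.Icc 1 m) : ‖cJ σ a m J‖ = ∏ j ∈ J, ‖σ (a j)‖⁻¹ := by
  unfold cJ
  rw [norm_prod]
  have h : ∏ j ∈ Finset.Icc 1 m, ‖(if j ∈ J then -(σ (a j))⁻¹ else 1 : ℂ)‖ =
      ∏ j ∈ Finset.Icc 1 m, if j ∈ J then ‖σ (a j)‖⁻¹ else 1 := by
    apply Finset.prod_congr rfl
    intro j _
    split_ifs <;> simp
  rw [h, Finset.prod_ite_mem, Finset.inter_eq_right.2 hJ]

theorem cJ_ne_zero (J : Finset ℕ) : cJ σ a m J ≠ 0 := by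
  unfold cJ
  rw [Finset.prod_ne_zero_iff]
  intro j _
  split_ifs
  · exact neg_ne_zero.2 (inv_ne_zero (sigma_ne σ _))
  · exact one_ne_zero

theorem log_norm_cJ (J : Finset ℕ) (hJ : J ⊆ Finset.Icc 1 m) :
    Real.log ‖cJ σ a m J‖ = -∑ j ∈ J, Real.log ‖σ (a j)‖ := by
  rw [norm_cJ σ a m J hJ, Real.log_prod (fun j _ => inv_ne_zero (norm_ne_zero_iff.2 (sigma_ne σ _))),
    ← Finset.sum_neg_distrib]
  apply Finset.sum_congr rfl
  intro j _
  rw [Real.log_inv]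

theorem norm_f_ge {R : ℝ} (hR : 0 < R) (J : Finset ℕ) (hJn : J.Nonempty) {ρ : ℝ} (hρ : 4 * Real.exp m ≤ ρ)
    (h1 : ∀ j ∈ J, ρ * ‖σ (a j)‖ ≤ R)
    (h2 : ∀ j ∈ Finset.Icc 1 m, j ∉ J → ρ * R ≤ ‖σ (a j)‖) (hJ : J ⊆ Finset.Icc 1 m) (t : ℝ) :
    4 ≤ ‖(fpoly a m).eval₂ σ (circ R t)‖ := by
  have hρ4 : 4 ≤ ρ := by
    have : 1 ≤ Real.exp m := Real.one_le_exp (by positivity)
    linarith
  obtain ⟨α, k1, k2, k3, k4, k5⟩ := rep_f σ a m hR J
    (fun j hj => (mul_le_mul_of_nonneg_right (by linarith) (norm_nonneg _)).trans (h1 j hj))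
    (fun j hj hj' => (mul_le_mul_of_nonneg_right (by linarith) hR.le).trans (h2 j hj hj')) hJ
  have k3' := k3 t
  dsimp only at k3'
  rw [k3', norm_mul, norm_mul, norm_zpow, norm_circ hR, norm_cJ σ a m J hJ, zpow_natCast,
    ← Finset.prod_const, ← Finset.prod_mul_distrib, Complex.norm_exp]
  have h3 : ∀ j ∈ J, ρ ≤ ‖σ (a j)‖⁻¹ * R := by
    intro j hj
    have hp := norm_pos_iff.2 (sigma_ne σ (a j))
    rw [inv_mul_eq_div, le_div_iff₀ hp]
    exact h1 j hj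
  have h4 : ρ ≤ ∏ j ∈ J, ‖σ (a j)‖⁻¹ * R := by
    calc ρ = ρ ^ 1 := (pow_one ρ).symm
      _ ≤ ρ ^ J.card := pow_le_pow_right₀ (by linarith) (Finset.card_pos.2 hJn)
      _ = ∏ j ∈ J, ρ := by rw [Finset.prod_const]
      _ ≤ _ := Finset.prod_le_prod (fun _ _ => by linarith) h3
  have h5 : Real.exp (-m) ≤ Real.exp (α t).re := by
    apply Real.exp_le_exp.2
    have := (Complex.abs_re_le_norm (α t)).trans (k4 t)
    linarith [neg_abs_le (α t).re]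
  calc (4:ℝ) = 4 * Real.exp m * Real.exp (-m) := by
        rw [mul_assoc, ← Real.exp_add]; simp
    _ ≤ ρ * Real.exp (-m) := by gcongr
    _ ≤ (∏ j ∈ J, ‖σ (a j)‖⁻¹ * R) * Real.exp (α t).re := by gcongr

/-- existence of the closed paths -/
theorem exists_loop {R : ℝ} (hR : 0 < R) (hT : Transcendental ℚ R) (J : Finset ℕ) (hJn : J.Nonempty)
    {ρ : ℝ} (hρ : 4 * Real.exp m ≤ ρ)
    (h1 : ∀ j ∈ J, ρ * ‖σ (a j)‖ ≤ R)
    (h2 : ∀ j ∈ Finset.Icc 1 m, j ∉ J → ρ * R ≤ ‖σ (a j)‖) (hJ : J ⊆ Finset.Icc 1 m) :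
    ∃ γ : Loop (FF a m), (∀ (p : K[X]) (t : ℝ), γ.e t (iota a m p) = p.eval₂ σ (circ R t)) ∧
      Rep' R (fun t => γ.e t (yF a m : FF a m)) (cJ σ a m J) J.card (m + 1) := by
  have hρ4 : 4 ≤ ρ := by
    have : 1 ≤ Real.exp m := Real.one_le_exp (by positivity)
    linarith
  have hf := rep_f σ a m hR J
    (fun j hj => (mul_le_mul_of_nonneg_right (by linarith) (norm_nonneg _)).trans (h1 j hj))
    (fun j hj hj' => (mul_le_mul_of_nonneg_right (by linarith) hR.le).trans (h2 j hj hj')) hJ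
  have hfc : ContDiff ℝ 1 (fun t => (fpoly a m).eval₂ σ (circ R t)) := by
    simp only [Polynomial.eval₂_eq_sum_range]
    apply ContDiff.sum
    intro i _
    exact contDiff_const.mul ((contDiff_circ R).pow i)
  obtain ⟨v, hv1, hv2, hv3, hv4⟩ := exists_branch (R := R) hfc (by rw [circ_closed])
    (norm_f_ge σ a m hR J hJn hρ h1 h2 hJ)
  have hz : ∀ t, Transcendental ℚ (circ R t) := transcendental_circ hR hT
  have hw : ∀ t, (qpoly (fpoly a m)).eval₂ (evR σ (hz t)) ((fpoly a m).eval₂ σ (circ R t) * v t) = 0 := by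
    intro t
    unfold qpoly
    simp only [eval₂_add, eval₂_sub, eval₂_mul, eval₂_pow, eval₂_X, eval₂_C, eval₂_one]
    rw [evR_algebraMap]
    exact hv3 t
  refine ⟨mkLoop σ (qpoly (fpoly a m)) (circ R) (fun t => (fpoly a m).eval₂ σ (circ R t) * v t) hz
    (contDiff_circ R) hw (hfc.mul hv1) (circ_closed R) (by rw [circ_closed, hv2]), ?_, ?_⟩
  · intro p t
    show evF σ (qpoly (fpoly a m)) (hz t) (hw t) (iota a m p) = _
    unfold evF iota
    rw [RingHom.comp_apply, AdjoinRoot.lift_of, evR_algebraMap]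
  · have h := hf.rep'.mul hR hv4
    refine h.congr (fun t => ?_) (by ring) (by ring) le_rfl
    show _ = evF σ (qpoly (fpoly a m)) (hz t) (hw t) (AdjoinRoot.root (qpoly (fpoly a m)))
    unfold evF
    rw [AdjoinRoot.lift_root]

end Pool.Agent.W367.KT
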