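import Pool.Agent.W367.KT.Circle
set_option autoImplicit false

/-!
The main term of the regulator pairing of two functions that are almost monomials on a circle.
-/

namespace Pool.Agent.W367.KT

open Set MeasureTheory intervalIntegral Polynomial
open scoped TensorProduct WithZero Interval

variable {F : Type*} [Field F]

theorem rep_hasDerivAt {A : ℝ → ℂ} {R : ℝ} (hR : 0 < R) {c : ℂ} {m : ℤ} {α : ℝ → ℂ}
    (hα : ContDiff ℝ 1 α) (ha : ∀ t, A t = c * circ R t ^ m * Complex.exp (α t)) (t : ℝ) :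
    HasDerivAt A ((2 * Real.pi * Complex.I * m + deriv α t) * A t) t := by
  have h1 : HasDerivAt α (deriv α t) t := ((hα.differentiable (by norm_num)) t).hasDerivAt
  have h2 := h1.cexp
  have h3 : HasDerivAt (fun s => circ R s ^ m) ((m : ℂ) * circ R t ^ (m - 1) * (2 * Real.pi * Complex.I * circ R t)) t := by
    have := (hasDerivAt_zpow m (circ R t) (Or.inl (circ_ne_zero hR t))).comp t (hasDerivAt_circ R t)
    exact this
  have h4 := (h3.const_mul c).mul h2
  have h5 : A = fun s => c * circ R s ^ m * Complex.exp (α s) := funext ha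
  rw [h5]
  refine h4.congr_deriv ?_
  have hz := circ_ne_zero hR t
  rw [zpow_sub_one₀ hz]
  field_simp

theorem pair_estimate (γ : Loop F) (a b : Fˣ) {R : ℝ} (hR : 0 < R) {c c' : ℂ} (hc : c ≠ 0)
    (hc' : c' ≠ 0) (m n : ℤ) {α β : ℝ → ℂ} (hα : ContDiff ℝ 1 α) (hβ : ContDiff ℝ 1 β)
    (hα1 : α 0 = α 1) (hβ1 : β 0 = β 1)
    (ha : ∀ t, γ.e t (a : F) = c * circ R t ^ m * Complex.exp (α t))
    (hb : ∀ t, γ.e t (b : F) = c' * circ R t ^ n * Complex.exp (β t))
    {A0 A1 B0 : ℝ} (hA0 : ∀ t, ‖α t‖ ≤ A0) (hA1 : ∀ t, ‖deriv α t‖ ≤ A1) (hB0 : ∀ t, ‖β t‖ ≤ B0) :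
    |γ.pair a b - 2 * Real.pi * (n * Real.log ‖c‖ - m * Real.log ‖c'‖)| ≤
      2 * Real.pi * |(m:ℝ)| * B0 + 2 * Real.pi * |(n:ℝ)| * A0 + B0 * A1 := by
  have dα : ∀ t, HasDerivAt α (deriv α t) t := fun t => ((hα.differentiable (by norm_num)) t).hasDerivAt
  have dβ : ∀ t, HasDerivAt β (deriv β t) t := fun t => ((hβ.differentiable (by norm_num)) t).hasDerivAt
  have cα := hα.continuous
  have cβ := hβ.continuous
  have cα' := hα.continuous_deriv (by norm_num)
  have cβ' := hβ.continuous_deriv (by norm_num)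
  -- logarithmic derivatives
  have la : ∀ t, deriv (fun s => γ.e s (a : F)) t / γ.e t (a : F) = 2 * Real.pi * Complex.I * m + deriv α t := by
    intro t
    rw [(rep_hasDerivAt hR hα ha t).deriv, mul_div_assoc, div_self (γ.ne_zero a t), mul_one]
  have lb : ∀ t, deriv (fun s => γ.e s (b : F)) t / γ.e t (b : F) = 2 * Real.pi * Complex.I * n + deriv β t := by
    intro t
    rw [(rep_hasDerivAt hR hβ hb t).deriv, mul_div_assoc, div_self (γ.ne_zero b t), mul_one]
  have na : ∀ t, Real.log ‖γ.e t (a : F)‖ = Real.log ‖c‖ + m * Real.log R + (α t).re := by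
    intro t
    rw [ha t, norm_mul, norm_mul, norm_zpow, norm_circ hR, Complex.norm_exp, Real.log_mul, Real.log_mul,
      Real.log_zpow, Real.log_exp]
    · exact norm_ne_zero_iff.2 hc
    · exact zpow_ne_zero _ hR.ne'
    · exact mul_ne_zero (norm_ne_zero_iff.2 hc) (zpow_ne_zero _ hR.ne')
    · exact (Real.exp_pos _).ne'
  have nb : ∀ t, Real.log ‖γ.e t (b : F)‖ = Real.log ‖c'‖ + n * Real.log R + (β t).re := by
    intro t
    rw [hb t, norm_mul, norm_mul, norm_zpow, norm_circ hR, Complex.norm_exp, Real.log_mul, Real.log_mul,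
      Real.log_zpow, Real.log_exp]
    · exact norm_ne_zero_iff.2 hc'
    · exact zpow_ne_zero _ hR.ne'
    · exact mul_ne_zero (norm_ne_zero_iff.2 hc') (zpow_ne_zero _ hR.ne')
    · exact (Real.exp_pos _).ne'
  set P := Real.log ‖c‖ + m * Real.log R with hP
  set Q := Real.log ‖c'‖ + n * Real.log R with hQ
  set rest : ℝ → ℝ := fun t => 2 * Real.pi * n * (α t).re - 2 * Real.pi * m * (β t).re - (β t * deriv α t).im with hrest
  set G : ℝ → ℝ := fun t => P * (β t).im - Q * (α t).im + (α t).re * (β t).im with hG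
  set G' : ℝ → ℝ := fun t => P * (deriv β t).im - Q * (deriv α t).im +
    ((deriv α t).re * (β t).im + (α t).re * (deriv β t).im) with hG'
  have dG : ∀ t, HasDerivAt G (G' t) t := by
    intro t
    exact (((hd_im (dβ t)).const_mul P).sub ((hd_im (dα t)).const_mul Q)).add
      ((hd_re (dα t)).mul (hd_im (dβ t)))
  have cG' : Continuous G' := by
    simp only [hG']
    fun_prop
  have cR : Continuous rest := by
    simp only [hrest]
    fun_prop
  have him : ∀ k : ℤ, (2 * (Real.pi:ℂ) * Complex.I * k).im = 2 * Real.pi * k := by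
    intro k
    simp
  have hform : ∀ t, γ.form a b t = 2 * Real.pi * (n * Real.log ‖c‖ - m * Real.log ‖c'‖) + G' t + rest t := by
    intro t
    unfold Loop.form
    rw [la, lb, na, nb, Complex.add_im, Complex.add_im, him, him]
    simp only [hG', hrest, Complex.mul_im, hP, hQ]
    ring
  have hint : γ.pair a b = 2 * Real.pi * (n * Real.log ‖c‖ - m * Real.log ‖c'‖) + (G 1 - G 0) + ∫ t in (0:ℝ)..1, rest t := by
    unfold Loop.pair
    rw [intervalIntegral.integral_congr (g := fun t => 2 * Real.pi * (n * Real.log ‖c‖ - m * Real.log ‖c'‖) + G' t + rest t)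
      (fun t _ => hform t)]
    set C := 2 * Real.pi * (n * Real.log ‖c‖ - m * Real.log ‖c'‖) with hC
    have e1 : ∫ t in (0:ℝ)..1, (C + G' t + rest t) = (∫ t in (0:ℝ)..1, (C + G' t)) + ∫ t in (0:ℝ)..1, rest t :=
      intervalIntegral.integral_add (f := fun t => C + G' t)
        ((continuous_const.add cG').intervalIntegrable _ _) (cR.intervalIntegrable _ _)
    have e2 : ∫ t in (0:ℝ)..1, (C + G' t) = (∫ t in (0:ℝ)..1, C) + ∫ t in (0:ℝ)..1, G' t :=
      intervalIntegral.integral_add (f := fun _ => C)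
        (continuous_const.intervalIntegrable _ _) (cG'.intervalIntegrable _ _)
    rw [e1, e2, intervalIntegral.integral_eq_sub_of_hasDerivAt (fun t _ => dG t) (cG'.intervalIntegrable _ _)]
    simp
  have hG01 : G 1 - G 0 = 0 := by
    simp only [hG]
    rw [hα1, hβ1]; ring
  rw [hint, hG01]
  have hsimp : 2 * Real.pi * (n * Real.log ‖c‖ - m * Real.log ‖c'‖) + 0 + (∫ t in (0:ℝ)..1, rest t) -
      2 * Real.pi * (n * Real.log ‖c‖ - m * Real.log ‖c'‖) = ∫ t in (0:ℝ)..1, rest t := by ring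
  rw [hsimp]
  have hA0' : 0 ≤ A0 := (norm_nonneg _).trans (hA0 0)
  have hbound : ∀ t ∈ Ι (0:ℝ) 1, ‖rest t‖ ≤ 2 * Real.pi * |(m:ℝ)| * B0 + 2 * Real.pi * |(n:ℝ)| * A0 + B0 * A1 := by
    intro t _
    simp only [hrest]
    have h1 : |2 * Real.pi * n * (α t).re| ≤ 2 * Real.pi * |(n:ℝ)| * A0 := by
      rw [abs_mul, abs_mul, abs_of_pos (by positivity : (0:ℝ) < 2 * Real.pi)]
      exact mul_le_mul_of_nonneg_left ((Complex.abs_re_le_norm _).trans (hA0 t)) (by positivity)
    have h2 : |2 * Real.pi * m * (β t).re| ≤ 2 * Real.pi * |(m:ℝ)| * B0 := by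
      rw [abs_mul, abs_mul, abs_of_pos (by positivity : (0:ℝ) < 2 * Real.pi)]
      exact mul_le_mul_of_nonneg_left ((Complex.abs_re_le_norm _).trans (hB0 t)) (by positivity)
    have h3 : |(β t * deriv α t).im| ≤ B0 * A1 := by
      refine (Complex.abs_im_le_norm _).trans ?_
      rw [norm_mul]
      exact mul_le_mul (hB0 t) (hA1 t) (norm_nonneg _) ((norm_nonneg _).trans (hB0 t))
    rw [Real.norm_eq_abs]
    calc |2 * Real.pi * n * (α t).re - 2 * Real.pi * m * (β t).re - (β t * deriv α t).im|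
        ≤ |2 * Real.pi * n * (α t).re| + |2 * Real.pi * m * (β t).re| + |(β t * deriv α t).im| := by
          exact (abs_sub _ _).trans (add_le_add_left (abs_sub _ _) _)
      _ ≤ _ := by linarith
  have := intervalIntegral.norm_integral_le_of_norm_le_const hbound
  simpa using this

end Pool.Agent.W367.KT
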