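import Pool.Agent.W367.KT.K2
import Pool.Agent.W367.KT.Dilog
set_option autoImplicit false

/-!
Regulator integrals of `K_2` along closed paths of complex embeddings of a field.
-/

namespace Pool.Agent.W367.KT

open Set MeasureTheory intervalIntegral
open scoped TensorProduct WithZero

/-- A closed `C^1` path of embeddings of the field `F` into the complex numbers. For the function
field `F` of a curve `C` over a number field these are closed `C^1` paths on the Riemann
surface(s) of complex points of `C` avoiding all points with algebraic coordinates. -/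
structure Loop (F : Type*) [Field F] where
  /-- evaluation at the point with parameter `t` -/
  e : ℝ → F →+* ℂ
  smooth : ∀ h : F, ContDiff ℝ 1 (fun t => e t h)
  closed : e 0 = e 1

variable {F : Type*} [Field F]

/-- the integrand `log|a| d arg b - log|b| d arg a` -/
noncomputable def Loop.form (γ : Loop F) (a b : F) (t : ℝ) : ℝ :=
  Real.log ‖γ.e t a‖ * (deriv (fun s => γ.e s b) t / γ.e t b).im
    - Real.log ‖γ.e t b‖ * (deriv (fun s => γ.e s a) t / γ.e t a).im

theorem Loop.ne_zero (γ : Loop F) (a : Fˣ) (t : ℝ) : γ.e t (a : F) ≠ 0 := by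
  rw [Ne, map_eq_zero]; exact a.ne_zero

theorem Loop.hasDerivAt (γ : Loop F) (a : F) (t : ℝ) :
    HasDerivAt (fun s => γ.e s a) (deriv (fun s => γ.e s a) t) t :=
  (((γ.smooth a).differentiable (by norm_num)) t).hasDerivAt

theorem Loop.logDeriv_mul (γ : Loop F) (a b : Fˣ) (t : ℝ) :
    deriv (fun s => γ.e s ((a * b : Fˣ) : F)) t / γ.e t ((a * b : Fˣ) : F) =
      deriv (fun s => γ.e s (a : F)) t / γ.e t (a : F) +
      deriv (fun s => γ.e s (b : F)) t / γ.e t (b : F) := by
  have h : deriv (fun s => γ.e s ((a * b : Fˣ) : F)) t =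
      deriv (fun s => γ.e s (a : F)) t * γ.e t (b : F) + γ.e t (a : F) * deriv (fun s => γ.e s (b : F)) t := by
    have h1 := (γ.hasDerivAt (a : F) t).mul (γ.hasDerivAt (b : F) t)
    have h2 : (fun s => γ.e s ((a * b : Fˣ) : F)) = (fun s => γ.e s (a : F)) * (fun s => γ.e s (b : F)) := by
      funext s
      simp
    rw [h2]
    exact h1.deriv
  have ha := γ.ne_zero a t
  have hb := γ.ne_zero b t
  rw [h, Units.val_mul, map_mul]
  field_simp

theorem Loop.log_mul (γ : Loop F) (a b : Fˣ) (t : ℝ) :
    Real.log ‖γ.e t ((a * b : Fˣ) : F)‖ = Real.log ‖γ.e t (a : F)‖ + Real.log ‖γ.e t (b : F)‖ := by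
  rw [Units.val_mul, map_mul, norm_mul, Real.log_mul (norm_ne_zero_iff.2 (γ.ne_zero a t))
    (norm_ne_zero_iff.2 (γ.ne_zero b t))]

theorem Loop.continuous_form (γ : Loop F) (a b : Fˣ) : Continuous (γ.form a b) := by
  have hc : ∀ a : Fˣ, Continuous fun t => γ.e t (a : F) := fun a => (γ.smooth a).continuous
  have hd : ∀ a : Fˣ, Continuous fun t => deriv (fun s => γ.e s (a : F)) t := fun a =>
    (γ.smooth a).continuous_deriv (by norm_num)
  unfold Loop.form
  refine Continuous.sub (Continuous.mul ?_ ?_) (Continuous.mul ?_ ?_)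
  · exact Continuous.log (hc a).norm (fun t => norm_ne_zero_iff.2 (γ.ne_zero a t))
  · exact Complex.continuous_im.comp ((hd b).div (hc b) (γ.ne_zero b))
  · exact Continuous.log (hc b).norm (fun t => norm_ne_zero_iff.2 (γ.ne_zero b t))
  · exact Complex.continuous_im.comp ((hd a).div (hc a) (γ.ne_zero a))

/-- the regulator pairing of the symbol `{a, b}` with the closed path `γ` -/
noncomputable def Loop.pair (γ : Loop F) (a b : Fˣ) : ℝ := ∫ t in (0:ℝ)..1, γ.form a b t

theorem Loop.pair_mul_left (γ : Loop F) (a b c : Fˣ) :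
    γ.pair (a * b) c = γ.pair a c + γ.pair b c := by
  unfold Loop.pair
  rw [← intervalIntegral.integral_add ((γ.continuous_form a c).intervalIntegrable _ _)
    ((γ.continuous_form b c).intervalIntegrable _ _)]
  apply intervalIntegral.integral_congr
  intro t _
  show γ.form ((a * b : Fˣ) : F) c t = γ.form a c t + γ.form b c t
  unfold Loop.form
  rw [γ.log_mul, γ.logDeriv_mul, Complex.add_im]
  ring

theorem Loop.pair_mul_right (γ : Loop F) (a b c : Fˣ) :
    γ.pair a (b * c) = γ.pair a b + γ.pair a c := by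
  unfold Loop.pair
  rw [← intervalIntegral.integral_add ((γ.continuous_form a b).intervalIntegrable _ _)
    ((γ.continuous_form a c).intervalIntegrable _ _)]
  apply intervalIntegral.integral_congr
  intro t _
  show γ.form a ((b * c : Fˣ) : F) t = γ.form a b t + γ.form a c t
  unfold Loop.form
  rw [γ.log_mul, γ.logDeriv_mul, Complex.add_im]
  ring

theorem Loop.pair_steinberg (γ : Loop F) (a b : Fˣ) (hab : (a : F) + (b : F) = 1) :
    γ.pair a b = 0 := by
  have hb : ∀ t, γ.e t (b : F) = 1 - γ.e t (a : F) := by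
    intro t
    have h := congrArg (γ.e t) hab
    rw [map_add, map_one] at h
    rw [← h]; ring
  have h := integral_eta_eq_zero (u := fun t => γ.e t (a : F)) (γ.smooth a) (γ.ne_zero a)
    (fun t h => by
      have h1 := hb t
      rw [h, sub_self] at h1
      exact γ.ne_zero b t h1)
    (by rw [γ.closed])
  unfold Loop.pair
  refine Eq.trans ?_ h
  apply intervalIntegral.integral_congr
  intro t _
  have hd : deriv (fun s => γ.e s (b : F)) t = - deriv (fun s => γ.e s (a : F)) t := by
    have h1 : (fun s => γ.e s (b : F)) = fun s => 1 - γ.e s (a : F) := funext hb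
    rw [h1]
    exact ((γ.hasDerivAt (a : F) t).const_sub 1).deriv
  show γ.form a b t = eta (γ.e t a) (deriv (fun s => γ.e s (a : F)) t)
  unfold Loop.form eta
  rw [hd, hb t]

/-- the regulator pairing with a closed path, on `K_2` -/
noncomputable def Loop.reg (γ : Loop F) : K2 F →+ ℝ :=
  K2lift γ.pair γ.pair_mul_left γ.pair_mul_right γ.pair_steinberg

/-- the regulator pairing with a closed path, on `K_2 ⊗ ℚ` -/
noncomputable def Loop.regQ (γ : Loop F) : ℚ ⊗[ℤ] K2 F →ₗ[ℚ] ℝ :=
  LinearMap.liftBaseChange ℚ γ.reg.toIntLinearMap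

theorem Loop.regQ_tmul (γ : Loop F) (q : ℚ) (a b : Fˣ) :
    γ.regQ (q ⊗ₜ[ℤ] symb a b) = q • γ.pair a b := by
  unfold Loop.regQ
  rw [LinearMap.liftBaseChange_tmul]
  rfl

/-- Classes whose regulators along suitable closed paths have nonzero determinant are linearly
independent over `ℚ`. -/
theorem linearIndependent_of_det {ι : Type*} [Fintype ι] [DecidableEq ι] (γ : ι → Loop F)
    (α : ι → ℚ ⊗[ℤ] K2 F) (h : Matrix.det (Matrix.of fun i j => (γ i).regQ (α j)) ≠ 0) :
    LinearIndependent ℚ α := by
  have h1 : LinearIndependent ℝ (Matrix.of fun i j => (γ i).regQ (α j)).col :=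
    Matrix.linearIndependent_cols_of_det_ne_zero h
  have h2 : LinearIndependent ℚ (Matrix.of fun i j => (γ i).regQ (α j)).col :=
    h1.restrict_scalars' ℚ
  let Φ : (ℚ ⊗[ℤ] K2 F) →ₗ[ℚ] (ι → ℝ) := LinearMap.pi fun i => (γ i).regQ
  have h3 : (Matrix.of fun i j => (γ i).regQ (α j)).col = Φ ∘ α := by
    funext j i
    rfl
  rw [h3] at h2
  exact LinearIndependent.of_comp Φ h2

/-- The field `F` has `r` elements of the integral part `H2MZ F` of `K_2 (F) ⊗ ℚ`, linearly
independent over `ℚ`, whose regulator integrals along `r` suitable closed paths form an invertible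
matrix. -/
def IndepClasses (F : Type*) [Field F] (r : ℕ) : Prop :=
  ∃ (α : Fin r → ℚ ⊗[ℤ] K2 F) (γ : Fin r → Loop F), (∀ k, α k ∈ H2MZ F) ∧
    LinearIndependent ℚ α ∧ (Matrix.of fun i k => (γ i).regQ (α k)).det ≠ 0

theorem indepClasses_of_det {r : ℕ} (γ : Fin r → Loop F) (α : Fin r → ℚ ⊗[ℤ] K2 F)
    (h1 : ∀ k, α k ∈ H2MZ F) (h : Matrix.det (Matrix.of fun i j => (γ i).regQ (α j)) ≠ 0) :
    IndepClasses F r := ⟨α, γ, h1, linearIndependent_of_det γ α h, h⟩

theorem IndepClasses.le_rank {F : Type} [Field F] {r : ℕ} (h : IndepClasses F r) :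
    (r : Cardinal) ≤ Module.rank ℚ (H2MZ F) := by
  obtain ⟨α, γ, h1, h2, -⟩ := h
  have hli2 : LinearIndependent ℚ (fun k : Fin r => (⟨α k, h1 k⟩ : H2MZ F)) := by
    apply LinearIndependent.of_comp (H2MZ F).subtype
    exact h2
  have := hli2.cardinal_le_rank
  simpa using this

end Pool.Agent.W367.KT
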