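import Pool.Agent.W367.KT.K2
set_option autoImplicit false

/-!
Triviality of tame symbols on the curve `y + 1/y = ∏ (1 - x/a_j)`.
-/

namespace Pool.Agent.W367.KT

open scoped WithZero

variable {F : Type*} [Field F] (v : Valuation F ℤᵐ⁰)

/-- principal units -/
def U1 : Subgroup Fˣ := v.valuationSubring.principalUnitGroup

theorem mem_U1 (u : Fˣ) : u ∈ U1 v ↔ v ((u : F) - 1) < 1 := by
  unfold U1
  rw [ValuationSubring.mem_principalUnitGroup_iff]
  exact ((Valuation.isEquiv_valuation_valuationSubring v).lt_one_iff_lt_one).symm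

theorem ord_of_mem_U1 {u : Fˣ} (h : u ∈ U1 v) : ord v u = 0 := by
  rw [mem_U1] at h
  rw [ord_eq_iff]
  have : v (u : F) = v (1 + ((u : F) - 1)) := by ring_nf
  rw [this, Valuation.map_one_add_of_lt v h]
  simp

theorem ord_eq_zero_iff (u : Fˣ) : ord v u = 0 ↔ v (u : F) = 1 := by
  rw [ord_eq_iff]; simp

theorem ord_neg_iff (u : Fˣ) : ord v u < 0 ↔ 1 < v (u : F) := by
  rw [val_eq, ← WithZero.exp_zero, WithZero.exp_lt_exp]; omega

theorem ord_pos_iff (u : Fˣ) : 0 < ord v u ↔ v (u : F) < 1 := by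
  rw [val_eq, ← WithZero.exp_zero, WithZero.exp_lt_exp]; omega

theorem ord_prod {ι : Type*} (s : Finset ι) (h : ι → Fˣ) : ord v (∏ i ∈ s, h i) = ∑ i ∈ s, ord v (h i) := by
  classical
  induction s using Finset.induction_on with
  | empty => simp [ord_one]
  | insert i s hi ih => rw [Finset.prod_insert hi, Finset.sum_insert hi, ord_mul, ih]

/-- the data: `h j = 1 - x / a j`, `y + 1/y = ∏ h j` -/
structure YData (F : Type*) [Field F] where
  m : ℕ
  hm : 1 ≤ m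
  x : Fˣ
  a : ℕ → Fˣ
  h : ℕ → Fˣ
  hh : ∀ j, (h j : F) = 1 - x / a j
  y : Fˣ
  hy : (y : F) ^ 2 - ((∏ j ∈ Finset.Icc 1 m, h j : Fˣ) : F) * y + 1 = 0

namespace YData

variable {v} (D : YData F)

/-- the function `f` -/
noncomputable def f : Fˣ := ∏ j ∈ Finset.Icc 1 D.m, D.h j

theorem caseA_h (ha : ∀ j, v (D.a j : F) = 1) (hx : 1 < v (D.x : F)) (j : ℕ) :
    ∃ u ∈ U1 v, D.h j = -(D.a j)⁻¹ * D.x * u := by
  refine ⟨D.h j * (-(D.a j)⁻¹ * D.x)⁻¹, ?_, ?_⟩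
  · rw [mem_U1]
    have e : ((D.h j * (-(D.a j)⁻¹ * D.x)⁻¹ : Fˣ) : F) - 1 = -(D.a j / D.x) := by
      push_cast
      rw [D.hh]
      have h1 := (D.a j).ne_zero
      have h2 := D.x.ne_zero
      field_simp
      ring
    rw [e, Valuation.map_neg, map_div₀, ha j, one_div]
    exact inv_lt_one_of_one_lt₀ hx
  · rw [mul_comm, inv_mul_cancel_right]

theorem caseA_f (ha : ∀ j, v (D.a j : F) = 1) (hx : 1 < v (D.x : F)) :
    ∃ u ∈ U1 v, D.f = (∏ j ∈ Finset.Icc 1 D.m, -(D.a j)⁻¹) * D.x ^ D.m * u := by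
  choose u hu hu2 using D.caseA_h ha hx
  refine ⟨∏ j ∈ Finset.Icc 1 D.m, u j, Subgroup.prod_mem _ (fun j _ => hu j), ?_⟩
  unfold f
  rw [Finset.prod_congr rfl (fun j _ => hu2 j), Finset.prod_mul_distrib, Finset.prod_mul_distrib,
    Finset.prod_const, Nat.card_Icc, Nat.add_sub_cancel]

theorem ord_f_caseA (ha : ∀ j, v (D.a j : F) = 1) (hx : 1 < v (D.x : F)) :
    ord v D.f = D.m * ord v D.x := by
  obtain ⟨u, hu, hf⟩ := D.caseA_f ha hx
  rw [hf, ord_mul, ord_mul, ord_of_mem_U1 v hu, ord_prod, ord_pow]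
  have : ∀ j ∈ Finset.Icc 1 D.m, ord v (-(D.a j)⁻¹) = 0 := by
    intro j _
    rw [ord_neg, ord_inv, (ord_eq_zero_iff v _).2 (ha j), neg_zero]
  rw [Finset.sum_eq_zero this]
  ring

theorem hy' : (D.y : F) ^ 2 - (D.f : F) * D.y + 1 = 0 := D.hy

/-- in case A, `y = f^{±1} u` -/
theorem caseA_y (ha : ∀ j, v (D.a j : F) = 1) (hx : 1 < v (D.x : F)) :
    ∃ s : ℤ, ∃ u ∈ U1 v, D.y = D.f ^ s * u ∧ (s = 1 ∨ s = -1) := by
  have hf : 1 < v (D.f : F) := by
    rw [← ord_neg_iff, D.ord_f_caseA ha hx]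
    have h1 := (ord_neg_iff v D.x).2 hx
    have h2 : (1:ℤ) ≤ D.m := by exact_mod_cast D.hm
    nlinarith
  have hy := D.hy'
  have hy0 := D.y.ne_zero
  have hf0 := D.f.ne_zero
  rcases lt_trichotomy (v (D.y : F)) 1 with h | h | h
  · refine ⟨-1, D.y * D.f, ?_, ?_, Or.inr rfl⟩
    · rw [mem_U1]
      have e : ((D.y * D.f : Fˣ) : F) - 1 = (D.y : F) ^ 2 := by
        push_cast
        linear_combination -hy
      rw [e, map_pow]
      exact pow_lt_one₀ zero_le h (by norm_num)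
    · rw [zpow_neg_one, mul_comm D.y, inv_mul_cancel_left]
  · exfalso
    have e : (D.f : F) = D.y + (D.y : F)⁻¹ := by
      field_simp
      linear_combination -hy
    have h2 : v (D.f : F) ≤ 1 := by
      rw [e]
      exact Valuation.map_add_le v h.le (by rw [map_inv₀, h, inv_one])
    exact absurd hf (not_lt.2 h2)
  · refine ⟨1, D.y * D.f⁻¹, ?_, ?_, Or.inl rfl⟩
    · have hinv : (D.y * D.f⁻¹)⁻¹ ∈ U1 v := by
        rw [mem_U1]
        have e : (((D.y * D.f⁻¹)⁻¹ : Fˣ) : F) - 1 = ((D.y : F)⁻¹) ^ 2 := by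
          push_cast
          field_simp
          linear_combination -hy
        rw [e, map_pow, map_inv₀]
        exact pow_lt_one₀ zero_le (inv_lt_one_of_one_lt₀ h) (by norm_num)
      simpa using (U1 v).inv_mem hinv
    · rw [zpow_one, mul_comm D.y, mul_inv_cancel_left]

/-- case A: the tame symbol is trivial up to sign -/
theorem caseA (ha : ∀ j, v (D.a j : F) = 1) (hx : 1 < v (D.x : F)) (A : Fˣ)
    (hA : ∃ w ∈ U1 v, A ^ D.m = D.f ^ 2 * w) (hAo : ord v A = 2 * ord v D.x) :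
    tameElt v A D.y ^ 2 ∈ U1 v := by
  obtain ⟨w, hw, hA⟩ := hA
  obtain ⟨s, u, hu, hy, hs⟩ := D.caseA_y ha hx
  have hoy : ord v D.y = s * (D.m * ord v D.x) := by
    rw [hy, ord_mul, ord_zpow, ord_of_mem_U1 v hu, D.ord_f_caseA ha hx, add_zero]
  unfold tameElt
  rw [hAo, hoy]
  set o := ord v D.x
  have h1 : A ^ (s * (D.m * o)) = (D.f ^ 2 * w) ^ (s * o) := by
    rw [← hA, ← zpow_natCast A, ← zpow_mul]
    congr 1
    ring
  have h2 : D.y ^ (-(2 * o)) = D.f ^ (-(2 * s * o)) * u ^ (-(2 * o)) := by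
    rw [hy, mul_zpow, ← zpow_mul]
    congr 2
    ring
  have h3 : (D.f ^ 2 * w) ^ (s * o) = D.f ^ (2 * s * o) * w ^ (s * o) := by
    rw [mul_zpow, ← zpow_natCast D.f 2, ← zpow_mul]
    congr 2
    push_cast
    ring
  rw [h1, h2, h3]
  have h4 : ((-1 : Fˣ) ^ (2 * o * (s * (D.m * o))) * (D.f ^ (2 * s * o) * w ^ (s * o)) *
      (D.f ^ (-(2 * s * o)) * u ^ (-(2 * o)))) =
      (-1 : Fˣ) ^ (2 * o * (s * (D.m * o))) * (w ^ (s * o) * u ^ (-(2 * o))) := by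
    rw [zpow_neg D.f]
    have key : ∀ E P W V : Fˣ, E * (P * W) * (P⁻¹ * V) = E * (W * V) := by
      intro E P W V
      rw [mul_assoc, mul_mul_mul_comm P W, mul_inv_cancel, one_mul]
    exact key _ _ _ _
  rw [h4, mul_pow, ← zpow_natCast ((-1 : Fˣ) ^ _), ← zpow_mul]
  have h5 : (-1 : Fˣ) ^ (2 * o * (s * (D.m * o)) * ((2:ℕ):ℤ)) = 1 := by
    rw [mul_comm, zpow_mul]
    simp
  rw [h5, one_mul]
  exact Subgroup.pow_mem _ (Subgroup.mul_mem _ (Subgroup.zpow_mem _ hw _) (Subgroup.zpow_mem _ hu _)) _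

/-- case B: `v x ≤ 1` implies `v y = 1` -/
theorem caseB_y (ha : ∀ j, v (D.a j : F) = 1) (hx : v (D.x : F) ≤ 1) : v (D.y : F) = 1 := by
  have hh : ∀ j, v (D.h j : F) ≤ 1 := by
    intro j
    rw [D.hh]
    refine Valuation.map_sub_le v (map_one v).le ?_
    rw [map_div₀, ha j, div_one]; exact hx
  have hf : v (D.f : F) ≤ 1 := by
    unfold f
    rw [Units.coe_prod, map_prod]
    exact Finset.prod_le_one' (fun j _ => hh j)
  have hy := D.hy'
  have hy0 := D.y.ne_zero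
  have e : (D.f : F) = D.y + (D.y : F)⁻¹ := by
    field_simp
    linear_combination -hy
  rcases lt_trichotomy (v (D.y : F)) 1 with h | h | h
  · exfalso
    have h1 : 1 < v ((D.y : F)⁻¹) := by
      rw [map_inv₀]
      exact (one_lt_inv₀ (zero_lt_iff.2 ((Valuation.ne_zero_iff v).2 hy0))).2 h
    have h2 : v (D.f : F) = v ((D.y : F)⁻¹) := by
      rw [e]
      exact Valuation.map_add_eq_of_lt_right v (h.trans h1)
    rw [h2] at hf
    exact absurd h1 (not_lt.2 hf)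
  · exact h
  · exfalso
    have h1 : v ((D.y : F)⁻¹) < 1 := by
      rw [map_inv₀]
      exact inv_lt_one_of_one_lt₀ h
    have h2 : v (D.f : F) = v (D.y : F) := by
      rw [e]
      exact Valuation.map_add_eq_of_lt_left v (h1.trans h)
    rw [h2] at hf
    exact absurd h (not_lt.2 hf)

theorem tame_of_pow {A y : Fˣ} (hy : ord v y = 0) {k : ℕ} (h : ord v A = 0 ∨ y ^ k ∈ U1 v) :
    tameElt v A y ^ k ∈ U1 v := by
  unfold tameElt
  rw [hy]
  rcases h with h | h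
  · rw [h]; simp [(U1 v).one_mem]
  · have : ((-1 : Fˣ) ^ (ord v A * 0) * A ^ (0:ℤ) * y ^ (-(ord v A))) ^ k = (y ^ k) ^ (-(ord v A)) := by
      simp only [mul_zero, zpow_zero, one_mul]
      rw [← zpow_natCast, ← zpow_mul, ← zpow_natCast y, ← zpow_mul]
      congr 1
      ring
    rw [this]
    exact Subgroup.zpow_mem _ h _

theorem sq_lead : (∏ j ∈ Finset.Icc 1 D.m, -(D.a j)⁻¹) ^ 2 = ((∏ j ∈ Finset.Icc 1 D.m, D.a j) ^ 2)⁻¹ := by
  rw [← Finset.prod_pow, ← Finset.prod_pow, ← Finset.prod_inv_distrib]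
  apply Finset.prod_congr rfl
  intro j _
  rw [neg_sq, inv_pow]

theorem h_mem_U1 (ha : ∀ j, v (D.a j : F) = 1) (hx : v (D.x : F) < 1) (j : ℕ) : D.h j ∈ U1 v := by
  rw [mem_U1, D.hh]
  have : (1 : F) - D.x / D.a j - 1 = -(D.x / D.a j) := by ring
  rw [this, Valuation.map_neg, map_div₀, ha j, div_one]
  exact hx

theorem caseB_x (ha : ∀ j, v (D.a j : F) = 1) (hx : v (D.x : F) < 1) : D.y ^ 6 ∈ U1 v := by
  have hf : D.f ∈ U1 v := Subgroup.prod_mem _ (fun j _ => D.h_mem_U1 ha hx j)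
  rw [mem_U1] at hf
  have hy1 := D.caseB_y ha hx.le
  have hy := D.hy'
  rw [mem_U1]
  have e : ((D.y ^ 6 : Fˣ) : F) - 1 = (((D.f : F) - 1) * D.y) * ((D.y + 1) * ((D.y : F) ^ 3 - 1)) := by
    push_cast
    linear_combination (-((D.y : F) + 1) * ((D.y : F) ^ 3 - 1)) * (-1) * hy
  rw [e, map_mul, map_mul, map_mul, hy1, mul_one]
  have h1 : v ((D.y : F) + 1) ≤ 1 := Valuation.map_add_le v hy1.le (map_one v).le
  have h2 : v ((D.y : F) ^ 3 - 1) ≤ 1 := Valuation.map_sub_le v (by rw [map_pow, hy1, one_pow]) (map_one v).le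
  calc v ((D.f : F) - 1) * (v ((D.y : F) + 1) * v ((D.y : F) ^ 3 - 1)) ≤ v ((D.f : F) - 1) * (1 * 1) := by
        gcongr
    _ < 1 := by simpa using hf

theorem caseB_h (ha : ∀ j, v (D.a j : F) = 1) (hx : v (D.x : F) ≤ 1) (k : ℕ) (hk : k ∈ Finset.Icc 1 D.m)
    (hhk : v (D.h k : F) < 1) : D.y ^ 4 ∈ U1 v := by
  have hh : ∀ j, v (D.h j : F) ≤ 1 := by
    intro j
    rw [D.hh]
    refine Valuation.map_sub_le v (map_one v).le ?_
    rw [map_div₀, ha j, div_one]; exact hx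
  have hf : v (D.f : F) < 1 := by
    unfold f
    rw [Units.coe_prod, map_prod, ← Finset.mul_prod_erase _ _ hk]
    calc v (D.h k : F) * ∏ i ∈ (Finset.Icc 1 D.m).erase k, v (D.h i : F) ≤ v (D.h k : F) * 1 := by
          gcongr
          exact Finset.prod_le_one' (fun j _ => hh j)
      _ < 1 := by simpa using hhk
  have hy1 := D.caseB_y ha hx
  have hy := D.hy'
  rw [mem_U1]
  have e : ((D.y ^ 4 : Fˣ) : F) - 1 = ((D.f : F) * D.y) * ((D.y : F) ^ 2 - 1) := by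
    push_cast
    linear_combination ((D.y : F) ^ 2 - 1) * hy
  rw [e, map_mul, map_mul, hy1, mul_one]
  have h2 : v ((D.y : F) ^ 2 - 1) ≤ 1 := Valuation.map_sub_le v (by rw [map_pow, hy1, one_pow]) (map_one v).le
  calc v (D.f : F) * v ((D.y : F) ^ 2 - 1) ≤ v (D.f : F) * 1 := by gcongr
    _ < 1 := by simpa using hf

/-- The tame symbols of `{C x ^ 2, y}` -/
theorem tame_x (ha : ∀ j, v (D.a j : F) = 1) (C : Fˣ) (hC : v (C : F) = 1)
    (hC2 : C ^ D.m * (∏ j ∈ Finset.Icc 1 D.m, D.a j) ^ 2 = 1) :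
    tameElt v (C * D.x ^ 2) D.y ^ 12 ∈ U1 v := by
  have hoC := (ord_eq_zero_iff v C).2 hC
  by_cases hx : 1 < v (D.x : F)
  · have h2 : tameElt v (C * D.x ^ 2) D.y ^ 2 ∈ U1 v := by
      refine D.caseA ha hx _ ?_ ?_
      · obtain ⟨u, hu, hf⟩ := D.caseA_f ha hx
        refine ⟨(u ^ 2)⁻¹, Subgroup.inv_mem _ (Subgroup.pow_mem _ hu _), ?_⟩
        have hC3 : C ^ D.m = ((∏ j ∈ Finset.Icc 1 D.m, D.a j) ^ 2)⁻¹ := eq_inv_of_mul_eq_one_left hC2
        rw [hf, mul_pow C, mul_pow _ u, mul_pow _ (D.x ^ D.m), D.sq_lead, hC3, mul_inv_cancel_right,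
          ← pow_mul, ← pow_mul, mul_comm 2 D.m]
      · rw [ord_mul, hoC, ord_pow]; push_cast; ring
    have : tameElt v (C * D.x ^ 2) D.y ^ 12 = (tameElt v (C * D.x ^ 2) D.y ^ 2) ^ 6 := by
      rw [← pow_mul]
    rw [this]
    exact Subgroup.pow_mem _ h2 _
  · have hx' : v (D.x : F) ≤ 1 := not_lt.1 hx
    have hy1 := (ord_eq_zero_iff v _).2 (D.caseB_y ha hx')
    apply tame_of_pow hy1
    rcases lt_or_eq_of_le hx' with h | h
    · right
      have : D.y ^ 12 = (D.y ^ 6) ^ 2 := by rw [← pow_mul]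
      rw [this]
      exact Subgroup.pow_mem _ (D.caseB_x ha h) _
    · left
      rw [ord_mul, hoC, ord_pow, (ord_eq_zero_iff v _).2 h]; simp

/-- The tame symbols of `{C (1 - x/a k) ^ 2, y}` -/
theorem tame_h (ha : ∀ j, v (D.a j : F) = 1) (k : ℕ) (hk : k ∈ Finset.Icc 1 D.m) (C : Fˣ)
    (hC : v (C : F) = 1)
    (hC2 : C ^ D.m * ((D.a k)⁻¹) ^ (2 * D.m) * (∏ j ∈ Finset.Icc 1 D.m, D.a j) ^ 2 = 1) :
    tameElt v (C * D.h k ^ 2) D.y ^ 12 ∈ U1 v := by
  have hoC := (ord_eq_zero_iff v C).2 hC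
  by_cases hx : 1 < v (D.x : F)
  · obtain ⟨u', hu', hh⟩ := D.caseA_h ha hx k
    have h2 : tameElt v (C * D.h k ^ 2) D.y ^ 2 ∈ U1 v := by
      refine D.caseA ha hx _ ?_ ?_
      · obtain ⟨u, hu, hf⟩ := D.caseA_f ha hx
        refine ⟨u' ^ (2 * D.m) * (u ^ 2)⁻¹, Subgroup.mul_mem _ (Subgroup.pow_mem _ hu' _)
          (Subgroup.inv_mem _ (Subgroup.pow_mem _ hu _)), ?_⟩
        have hC3 : C ^ D.m * ((D.a k)⁻¹) ^ (2 * D.m) = ((∏ j ∈ Finset.Icc 1 D.m, D.a j) ^ 2)⁻¹ :=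
          eq_inv_of_mul_eq_one_left hC2
        have e1 : (C * D.h k ^ 2) ^ D.m = (C ^ D.m * ((D.a k)⁻¹) ^ (2 * D.m)) * D.x ^ (2 * D.m) * u' ^ (2 * D.m) := by
          rw [hh, mul_pow, ← pow_mul, mul_pow, mul_pow, Even.neg_pow (even_two_mul _)]
          simp only [mul_assoc]
        have e2 : D.f ^ 2 = ((∏ j ∈ Finset.Icc 1 D.m, D.a j) ^ 2)⁻¹ * D.x ^ (2 * D.m) * u ^ 2 := by
          rw [hf, mul_pow, mul_pow, D.sq_lead, ← pow_mul, mul_comm D.m 2]
        rw [e1, e2, hC3]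
        have key : ∀ P X V U : Fˣ, P * X * V = P * X * U * (V * U⁻¹) := by
          intro P X V U
          rw [mul_comm V, mul_assoc (P * X), mul_inv_cancel_left]
        exact key _ _ _ _
      · rw [ord_mul, hoC, ord_pow, hh, ord_mul, ord_mul, ord_neg, ord_inv,
          (ord_eq_zero_iff v _).2 (ha k), ord_of_mem_U1 v hu']; push_cast; ring
    have : tameElt v (C * D.h k ^ 2) D.y ^ 12 = (tameElt v (C * D.h k ^ 2) D.y ^ 2) ^ 6 := by
      rw [← pow_mul]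
    rw [this]
    exact Subgroup.pow_mem _ h2 _
  · have hx' : v (D.x : F) ≤ 1 := not_lt.1 hx
    have hy1 := (ord_eq_zero_iff v _).2 (D.caseB_y ha hx')
    apply tame_of_pow hy1
    have hhk : v (D.h k : F) ≤ 1 := by
      rw [D.hh]
      refine Valuation.map_sub_le v (map_one v).le ?_
      rw [map_div₀, ha k, div_one]; exact hx'
    rcases lt_or_eq_of_le hhk with h | h
    · right
      have : D.y ^ 12 = (D.y ^ 4) ^ 3 := by rw [← pow_mul]
      rw [this]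
      exact Subgroup.pow_mem _ (D.caseB_h ha hx' k hk h) _
    · left
      rw [ord_mul, hoC, ord_pow, (ord_eq_zero_iff v _).2 h]; simp

end YData

end Pool.Agent.W367.KT
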